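import Mathlib

set_option autoImplicit false

/-! counting integer points in a box on a linear congruence -/

namespace Pool.Agent.K4H51.RD

open Finset

/-- the number of solutions of a linear congruence with a coprime coefficient vector -/
theorem zmod_count {ι : Type*} [Fintype ι] [DecidableEq ι] (q : ℕ) [NeZero q] (y u : ι → ZMod q)
    (hu : ∑ i, u i * y i = 1) (a : ZMod q) :
    (univ.filter fun v : ι → ZMod q => ∑ i, v i * y i = a).card * q ≤ q ^ Fintype.card ι := by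
  classical
  have h1 : (univ.filter fun v : ι → ZMod q => ∑ i, v i * y i = a).card * q =
      ((univ.filter fun v : ι → ZMod q => ∑ i, v i * y i = a) ×ˢ (univ : Finset (ZMod q))).card := by
    rw [card_product, Finset.card_univ, ZMod.card]
  have h2 : (univ : Finset (ι → ZMod q)).card = q ^ Fintype.card ι := by
    rw [Finset.card_univ, Fintype.card_fun, ZMod.card]
  rw [h1, ← h2]
  refine card_le_card_of_injOn (fun z => fun i => z.1 i + z.2 * u i) (fun z _ => by simp) ?_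
  rintro ⟨v, t⟩ hv ⟨w, s⟩ hw hvw
  simp only [coe_product, coe_filter, mem_univ, true_and, coe_univ, Set.mem_prod, Set.mem_ofPred_eq,
    Set.mem_univ, and_true] at hv hw
  have h3 : ∀ (v : ι → ZMod q) (t : ZMod q),
      ∑ i, (v i + t * u i) * y i = ∑ i, v i * y i + t := by
    intro v t
    calc ∑ i, (v i + t * u i) * y i = ∑ i, (v i * y i + t * (u i * y i)) :=
          sum_congr rfl fun i _ => by ring
      _ = ∑ i, v i * y i + t := by rw [sum_add_distrib, ← mul_sum, hu, mul_one]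
  have h4 : ∑ i, (v i + t * u i) * y i = ∑ i, (w i + s * u i) * y i := by
    refine sum_congr rfl fun i _ => ?_
    have := congrFun hvw i
    simp only at this
    rw [this]
  rw [h3, h3, hv, hw] at h4
  have h5 : t = s := add_left_cancel h4
  subst h5
  have h6 : v = w := by
    funext i
    have := congrFun hvw i
    simp only at this
    exact add_right_cancel this
  rw [h6]

/-- integers of a residue class in an interval -/
theorem class_count (q K : ℕ) (hq : 1 ≤ q) (hK : q ≤ K) (v : ZMod q) :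
    (((Icc (-(K : ℤ)) K).filter fun z : ℤ => (z : ZMod q) = v).card : ℝ) ≤ 4 * K / q := by
  have hq0 : (0 : ℝ) < q := by exact_mod_cast hq
  obtain ⟨w, rfl⟩ := ZMod.intCast_surjective v
  have h1 : ((Icc (-(K : ℤ)) K).filter fun z : ℤ => (z : ZMod q) = (w : ZMod q)) =
      (Ioc (-(K : ℤ) - 1) K).filter fun z : ℤ => z ≡ w [ZMOD (q : ℤ)] := by
    ext z
    rw [mem_filter, mem_filter, mem_Icc, mem_Ioc, ZMod.intCast_eq_intCast_iff]
    constructor
    · rintro ⟨⟨h1, h2⟩, h3⟩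
      exact ⟨⟨by omega, h2⟩, h3⟩
    · rintro ⟨⟨h1, h2⟩, h3⟩
      exact ⟨⟨by omega, h2⟩, h3⟩
  have h2 := Int.Ioc_filter_modEq_card (-(K : ℤ) - 1) (K : ℤ) (r := (q : ℤ)) (by omega) w
  rw [h1]
  have h3 : (((Ioc (-(K : ℤ) - 1) K).filter fun z : ℤ => z ≡ w [ZMOD (q : ℤ)]).card : ℝ) =
      ((max (⌊((K : ℤ) - w : ℚ) / ((q : ℤ) : ℚ)⌋ -
        ⌊((-(K : ℤ) - 1 : ℤ) - w : ℚ) / ((q : ℤ) : ℚ)⌋) 0 : ℤ) : ℝ) := by
    rw [← h2]
    norm_cast
  rw [h3]
  push_cast
  rw [max_le_iff]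
  constructor
  · have h4 : ((⌊((K : ℤ) - w : ℚ) / ((q : ℤ) : ℚ)⌋ : ℤ) : ℚ) ≤ ((K : ℤ) - w : ℚ) / ((q : ℤ) : ℚ) :=
      Int.floor_le _
    have h5 : (((-(K : ℤ) - 1 : ℤ) - w : ℚ) / ((q : ℤ) : ℚ)) <
        ((⌊((-(K : ℤ) - 1 : ℤ) - w : ℚ) / ((q : ℤ) : ℚ)⌋ : ℤ) : ℚ) + 1 := Int.lt_floor_add_one _
    have hq1 : (0 : ℚ) < q := by exact_mod_cast hq
    have h6 : ((⌊((K : ℤ) - w : ℚ) / ((q : ℤ) : ℚ)⌋ : ℤ) : ℚ) -
        ((⌊((-(K : ℤ) - 1 : ℤ) - w : ℚ) / ((q : ℤ) : ℚ)⌋ : ℤ) : ℚ) ≤ 4 * K / q := by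
      have h7 : ((K : ℤ) - w : ℚ) / ((q : ℤ) : ℚ) - (((-(K : ℤ) - 1 : ℤ) - w : ℚ) / ((q : ℤ) : ℚ)) + 1
          ≤ 4 * K / q := by
        have h8 : (q : ℚ) ≤ K := by exact_mod_cast hK
        have h9 : (1 : ℚ) ≤ q := by exact_mod_cast hq
        rw [show ((K : ℤ) - w : ℚ) / ((q : ℤ) : ℚ) - (((-(K : ℤ) - 1 : ℤ) - w : ℚ) / ((q : ℤ) : ℚ)) + 1
          = (2 * K + 1 + q) / q by push_cast; field_simp; ring]
        rw [div_le_div_iff_of_pos_right hq1]
        linarith
      linarith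
    have h10 := (Rat.cast_le (K := ℝ)).2 h6
    push_cast at h10 ⊢
    exact h10
  · positivity

/-- integer points in a box on a linear congruence -/
theorem box_count {ι : Type*} [Fintype ι] [DecidableEq ι] (q K : ℕ) (hq : 1 ≤ q) (hK : q ≤ K)
    (y u : ι → ℤ) (hu : ((∑ i, u i * y i : ℤ) : ZMod q) = 1) (a : ℤ) :
    (((Fintype.piFinset fun _ : ι => Icc (-(K : ℤ)) K).filter fun c =>
      (q : ℤ) ∣ a - ∑ i, c i * y i).card : ℝ) ≤ (4 * K) ^ Fintype.card ι / q := by
  classical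
  have : NeZero q := ⟨by omega⟩
  have hq0 : (0 : ℝ) < q := by exact_mod_cast hq
  set E := (Fintype.piFinset fun _ : ι => Icc (-(K : ℤ)) K).filter fun c =>
      (q : ℤ) ∣ a - ∑ i, c i * y i with hE
  set T := univ.filter fun v : ι → ZMod q => ∑ i, v i * (y i : ZMod q) = (a : ZMod q) with hT
  have h1 : ∀ c ∈ E, (fun i => (c i : ZMod q)) ∈ T := by
    intro c hc
    rw [hE, mem_filter] at hc
    rw [hT, mem_filter]
    refine ⟨mem_univ _, ?_⟩
    have h2 := (ZMod.intCast_zmod_eq_zero_iff_dvd _ _).2 hc.2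
    push_cast at h2
    exact (sub_eq_zero.1 h2).symm
  have h2 : E.card = ∑ v ∈ T, (E.filter fun c => (fun i => (c i : ZMod q)) = v).card :=
    card_eq_sum_card_fiberwise h1
  have h3 : ∀ v ∈ T, ((E.filter fun c => (fun i => (c i : ZMod q)) = v).card : ℝ) ≤
      (4 * K / q) ^ Fintype.card ι := by
    intro v _
    have h4 : (E.filter fun c => (fun i => (c i : ZMod q)) = v) ⊆
        Fintype.piFinset fun i => (Icc (-(K : ℤ)) K).filter fun z : ℤ => (z : ZMod q) = v i := by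
      intro c hc
      rw [mem_filter, hE, mem_filter, Fintype.mem_piFinset] at hc
      rw [Fintype.mem_piFinset]
      intro i
      rw [mem_filter]
      exact ⟨hc.1.1 i, congrFun hc.2 i⟩
    have h5 := card_le_card h4
    rw [Fintype.card_piFinset] at h5
    calc ((E.filter fun c => (fun i => (c i : ZMod q)) = v).card : ℝ) ≤
        ((∏ i, ((Icc (-(K : ℤ)) K).filter fun z : ℤ => (z : ZMod q) = v i).card : ℕ) : ℝ) := by
          exact_mod_cast h5
      _ = ∏ i, (((Icc (-(K : ℤ)) K).filter fun z : ℤ => (z : ZMod q) = v i).card : ℝ) := by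
          push_cast; rfl
      _ ≤ ∏ _i : ι, (4 * K / q : ℝ) :=
          prod_le_prod (fun i _ => Nat.cast_nonneg _) fun i _ => class_count q K hq hK (v i)
      _ = (4 * K / q) ^ Fintype.card ι := by
          rw [prod_const, card_univ]
  have h6 : (T.card : ℝ) * q ≤ (q : ℝ) ^ Fintype.card ι := by
    have h7 := zmod_count q (fun i => (y i : ZMod q)) (fun i => (u i : ZMod q))
      (by push_cast at hu; exact hu) (a : ZMod q)
    exact_mod_cast h7
  have h8 : (E.card : ℝ) ≤ T.card * (4 * K / q) ^ Fintype.card ι := by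
    rw [h2]
    push_cast
    calc _ ≤ ∑ _v ∈ T, (4 * K / q : ℝ) ^ Fintype.card ι := sum_le_sum h3
      _ = _ := by rw [sum_const, nsmul_eq_mul]
  calc (E.card : ℝ) ≤ T.card * (4 * K / q) ^ Fintype.card ι := h8
    _ = (T.card * q) * ((4 * K) ^ Fintype.card ι / (q ^ Fintype.card ι * q)) := by
        rw [div_pow]
        field_simp
    _ ≤ (q : ℝ) ^ Fintype.card ι * ((4 * K) ^ Fintype.card ι / (q ^ Fintype.card ι * q)) :=
        mul_le_mul_of_nonneg_right h6 (by positivity)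
    _ = _ := by field_simp

end Pool.Agent.K4H51.RD
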