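import Mathlib
import Pool.Agent.K4H51.RD.A

set_option autoImplicit false

/-! counting forms with bounded coefficients and a given value at a point -/

namespace Pool.Agent.K4H51.RD

open Finset MvPolynomial

variable {σ : Type} [Fintype σ] [DecidableEq σ]

/-- polynomials with exponents in `E` and coefficients bounded by `K` -/
noncomputable def PF (E : Finset (σ →₀ ℕ)) (K : ℕ) : Finset (MvPolynomial σ ℤ) :=
  (Fintype.piFinset fun _ : E => Icc (-(K : ℤ)) K).image
    fun c => ∑ m : E, monomial m.1 (c m)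

theorem coeff_toF (E : Finset (σ →₀ ℕ)) (c : E → ℤ) (m : σ →₀ ℕ) :
    coeff m (∑ m : E, monomial m.1 (c m)) = if h : m ∈ E then c ⟨m, h⟩ else 0 := by
  classical
  rw [coeff_sum]
  simp only [coeff_monomial]
  split_ifs with h
  · rw [Finset.sum_eq_single (⟨m, h⟩ : E)]
    · simp
    · intro b _ hb
      rw [if_neg]
      intro h1
      exact hb (Subtype.ext h1)
    · intro h1
      exact absurd (mem_univ _) h1
  · refine Finset.sum_eq_zero fun b _ => ?_
    rw [if_neg]
    intro h1
    exact h (h1 ▸ b.2)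

theorem toF_inj (E : Finset (σ →₀ ℕ)) :
    Function.Injective fun c : E → ℤ => ∑ m : E, (monomial m.1 (c m) : MvPolynomial σ ℤ) := by
  intro c c' h
  funext m
  have h1 := congrArg (coeff m.1) h
  simp only at h1
  rw [coeff_toF, coeff_toF, dif_pos m.2, dif_pos m.2] at h1
  exact h1

theorem PF_card (E : Finset (σ →₀ ℕ)) (K : ℕ) : (PF E K).card = (2 * K + 1) ^ E.card := by
  unfold PF
  rw [card_image_of_injective _ (toF_inj E), Fintype.card_piFinset]
  simp only [Int.card_Icc, prod_const, card_univ, Fintype.card_coe]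
  congr 1
  omega

theorem mem_PF {E : Finset (σ →₀ ℕ)} {K : ℕ} {F : MvPolynomial σ ℤ} :
    F ∈ PF E K ↔ (∀ m, coeff m F ≠ 0 → m ∈ E) ∧ ∀ m, |coeff m F| ≤ K := by
  unfold PF
  rw [mem_image]
  constructor
  · rintro ⟨c, hc, rfl⟩
    rw [Fintype.mem_piFinset] at hc
    constructor
    · intro m hm
      rw [coeff_toF] at hm
      by_contra h
      exact hm (dif_neg h)
    · intro m
      rw [coeff_toF]
      split_ifs with h
      · have := hc ⟨m, h⟩
        rw [mem_Icc] at this
        exact abs_le.2 this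
      · simp
  · rintro ⟨h1, h2⟩
    refine ⟨fun m => coeff m.1 F, ?_, ?_⟩
    · rw [Fintype.mem_piFinset]
      intro m
      rw [mem_Icc]
      exact abs_le.1 (h2 m.1)
    · ext m
      rw [coeff_toF]
      split_ifs with h
      · rfl
      · by_contra h3
        exact h (h1 m (Ne.symm h3))

theorem eval_sum {E : Finset (σ →₀ ℕ)} {F : MvPolynomial σ ℤ} (h : ∀ m, coeff m F ≠ 0 → m ∈ E)
    (x : σ → ℤ) : eval x F = ∑ m ∈ E, coeff m F * ∏ i, x i ^ m i := by
  rw [eval_eq']
  apply Finset.sum_subset
  · intro m hm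
    exact h m (mem_support_iff.1 hm)
  · intro m _ hm
    rw [notMem_support_iff.1 hm, zero_mul]

/-- polynomials with a value in a class -/
theorem PF_class (E : Finset (σ →₀ ℕ)) (q K : ℕ) (hq : 1 ≤ q) (hK : q ≤ K) (x : σ → ℤ)
    (U : (σ →₀ ℕ) → ℤ) (hU : ((∑ m ∈ E, U m * ∏ i, x i ^ m i : ℤ) : ZMod q) = 1) (a : ℤ) :
    (((PF E K).filter fun F => (q : ℤ) ∣ a - eval x F).card : ℝ) ≤ (4 * K) ^ E.card / q := by
  classical
  have h1 := box_count (ι := E) q K hq hK (fun m => ∏ i, x i ^ m.1 i) (fun m => U m.1)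
    (by rw [← hU, ← Finset.sum_coe_sort E]) a
  rw [Fintype.card_coe] at h1
  refine le_trans ?_ h1
  have h2 : ((PF E K).filter fun F => (q : ℤ) ∣ a - eval x F).card ≤
      ((Fintype.piFinset fun _ : E => Icc (-(K : ℤ)) K).filter fun c =>
      (q : ℤ) ∣ a - ∑ m : E, c m * ∏ i, x i ^ m.1 i).card := by
    refine card_le_card_of_injOn (fun F => fun m : E => coeff m.1 F) ?_ ?_
    · intro F hF
      rw [coe_filter, Set.mem_ofPred_eq, mem_PF] at hF
      rw [coe_filter, Set.mem_ofPred_eq, Fintype.mem_piFinset]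
      refine ⟨fun m => ?_, ?_⟩
      · rw [mem_Icc]
        exact abs_le.1 (hF.1.2 m.1)
      · have h3 := hF.2
        rw [eval_sum hF.1.1, ← Finset.sum_coe_sort E] at h3
        exact h3
    · intro F hF G hG h
      rw [coe_filter, Set.mem_ofPred_eq, mem_PF] at hF hG
      ext m
      by_cases hm : m ∈ E
      · exact congrFun h ⟨m, hm⟩
      · have h4 : coeff m F = 0 := by
          by_contra h5
          exact hm (hF.1.1 m h5)
        have h6 : coeff m G = 0 := by
          by_contra h5
          exact hm (hG.1.1 m h5)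
        rw [h4, h6]
  exact_mod_cast h2

/-- exponents of degree `d` -/
noncomputable def Ex (σ : Type) [Fintype σ] [DecidableEq σ] (d : ℕ) : Finset (σ →₀ ℕ) :=
  finsuppAntidiag univ d

theorem mem_Ex {d : ℕ} {m : σ →₀ ℕ} : m ∈ Ex σ d ↔ ∑ i, m i = d := by
  unfold Ex
  rw [mem_finsuppAntidiag]
  exact ⟨fun h => h.1, fun h => ⟨h, subset_univ _⟩⟩

theorem hom_Ex {d : ℕ} {F : MvPolynomial σ ℤ} (h : F.IsHomogeneous d) (m : σ →₀ ℕ)
    (hm : coeff m F ≠ 0) : m ∈ Ex σ d := by
  rw [mem_Ex]
  by_contra h1
  refine hm (h.coeff_eq_zero ?_)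
  rwa [Finsupp.degree_eq_sum]

theorem Ex_succ_card (i0 : σ) (d : ℕ) :
    (Ex σ (d + 1)).card = ((Ex σ (d + 1)).filter fun m => m i0 = 0).card + (Ex σ d).card := by
  classical
  rw [← Finset.card_filter_add_card_filter_not (s := Ex σ (d + 1)) (fun m => m i0 = 0)]
  congr 1
  symm
  refine card_bij (fun m _ => Finsupp.single i0 1 + m) ?_ ?_ ?_
  · intro m hm
    rw [mem_Ex] at hm
    rw [mem_filter, mem_Ex]
    constructor
    · simp only [Finsupp.add_apply, sum_add_distrib, hm]
      rw [Finset.sum_eq_single i0]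
      · simp; ring
      · intro b _ hb
        rw [Finsupp.single_apply, if_neg (Ne.symm hb)]
      · intro h; exact absurd (mem_univ _) h
    · simp
  · intro m _ m' _ h
    exact add_left_cancel h
  · intro m hm
    rw [mem_filter, mem_Ex] at hm
    have h1 : Finsupp.single i0 1 ≤ m := by
      rw [Finsupp.single_le_iff]
      omega
    refine ⟨m - Finsupp.single i0 1, ?_, ?_⟩
    · rw [mem_Ex]
      have h2 := hm.1
      conv at h2 => lhs; rw [← add_tsub_cancel_of_le h1]
      simp only [Finsupp.add_apply, sum_add_distrib] at h2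
      rw [Finset.sum_eq_single (f := fun i => (Finsupp.single i0 1 : σ →₀ ℕ) i) i0] at h2
      · simp only [Finsupp.single_eq_same] at h2
        omega
      · intro b _ hb
        rw [Finsupp.single_apply, if_neg (Ne.symm hb)]
      · intro h; exact absurd (mem_univ _) h
    · exact add_tsub_cancel_of_le h1

/-- the congruence has a coprime coefficient vector -/
theorem exists_U (i0 : σ) (d q : ℕ) (x : σ → ℤ) (hx : univ.gcd x = 1) (hxq : (q : ℤ) ∣ x i0) :
    ∃ U : (σ →₀ ℕ) → ℤ, ((∑ m ∈ (Ex σ (d + 1)).filter fun m => m i0 = 0,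
      U m * ∏ i, x i ^ m i : ℤ) : ZMod q) = 1 := by
  classical
  obtain ⟨w, hw⟩ := Finset.gcd_eq_sum_mul (univ : Finset σ) x
  rw [hx] at hw
  set L : MvPolynomial σ ℤ := ∑ i, C (w i) * X i with hL
  have hLh : L.IsHomogeneous 1 := IsHomogeneous.sum _ _ _ fun i _ => isHomogeneous_C_mul_X _ _
  have hLe : eval x L = 1 := by
    rw [hL, map_sum, hw]
    refine sum_congr rfl fun i _ => ?_
    rw [map_mul, eval_C, eval_X, mul_comm]
  have hP : (L ^ (d + 1)).IsHomogeneous (d + 1) := by
    have := hLh.pow (d + 1)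
    rwa [one_mul] at this
  refine ⟨fun m => coeff m (L ^ (d + 1)), ?_⟩
  have h1 : eval x (L ^ (d + 1)) = 1 := by rw [map_pow, hLe, one_pow]
  rw [eval_sum (hom_Ex hP), ← Finset.sum_filter_add_sum_filter_not _ (fun m => m i0 = 0)] at h1
  have h2 := congrArg (fun z : ℤ => (z : ZMod q)) h1
  simp only [Int.cast_add, Int.cast_one] at h2
  have h3 : ((∑ m ∈ (Ex σ (d + 1)).filter fun m => ¬ m i0 = 0,
      coeff m (L ^ (d + 1)) * ∏ i, x i ^ m i : ℤ) : ZMod q) = 0 := by
    rw [ZMod.intCast_zmod_eq_zero_iff_dvd]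
    refine Finset.dvd_sum fun m hm => ?_
    rw [mem_filter] at hm
    refine Dvd.dvd.mul_left ?_ _
    refine dvd_trans ?_ (Finset.dvd_prod_of_mem (fun i => x i ^ m i) (mem_univ i0))
    exact dvd_pow hxq hm.2
  rw [h3, add_zero] at h2
  exact h2

/-- the number of forms with bounded coefficients and a given value -/
theorem value_count (i0 : σ) (q K : ℕ) (hq : 1 ≤ q) (hK : q ≤ K) (x : σ → ℤ)
    (hx : univ.gcd x = 1) (hxq : (x i0).natAbs = q) (d : ℕ) (a : ℤ) :
    (((PF (Ex σ d) K).filter fun F => eval x F = a).card : ℝ) * (4 * K) * q ^ d ≤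
      (4 * K) ^ (Ex σ d).card := by
  classical
  have hq0 : (0 : ℝ) < q := by exact_mod_cast hq
  have hK0 : (0 : ℝ) < K := by exact_mod_cast (hq.trans hK)
  have hxq' : (q : ℤ) ∣ x i0 := by
    rw [← hxq]
    exact Int.natAbs_dvd.2 dvd_rfl
  have hx0 : x i0 ≠ 0 := by
    intro h
    rw [h] at hxq
    simp at hxq
    omega
  have hxq2 : x i0 ∣ (q : ℤ) := by
    rw [← hxq]
    exact Int.dvd_natAbs.2 dvd_rfl
  induction d generalizing a with
  | zero =>
    have hE : Ex σ 0 = {0} := by
      ext m
      rw [mem_Ex, mem_singleton]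
      constructor
      · intro h
        ext i
        have := (Finset.sum_eq_zero_iff.1 h) i (mem_univ i)
        simpa using this
      · rintro rfl
        simp
    have h1 : ((PF (Ex σ 0) K).filter fun F => eval x F = a).card ≤ 1 := by
      rw [card_le_one]
      intro F hF G hG
      rw [mem_filter, mem_PF, hE] at hF hG
      have h2 : ∀ F : MvPolynomial σ ℤ, (∀ m, coeff m F ≠ 0 → m ∈ ({0} : Finset (σ →₀ ℕ))) →
          eval x F = coeff 0 F := by
        intro F hF
        rw [eval_sum hF]
        simp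
      ext m
      by_cases hm : m = 0
      · rw [hm, ← h2 F hF.1.1, ← h2 G hG.1.1, hF.2, hG.2]
      · have h3 : coeff m F = 0 := by
          by_contra h4
          exact hm (mem_singleton.1 (hF.1.1 m h4))
        have h5 : coeff m G = 0 := by
          by_contra h4
          exact hm (mem_singleton.1 (hG.1.1 m h4))
        rw [h3, h5]
    have h2 : (Ex σ 0).card = 1 := by rw [hE]; simp
    rw [h2, pow_zero, mul_one, pow_one]
    have h3 : ((((PF (Ex σ 0) K).filter fun F => eval x F = a).card : ℕ) : ℝ) ≤ 1 := by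
      exact_mod_cast h1
    nlinarith
  | succ d ih =>
    set E0 := (Ex σ (d + 1)).filter fun m => m i0 = 0 with hE0
    obtain ⟨U, hU⟩ := exists_U i0 d q x hx hxq'
    have hG := PF_class E0 q K hq hK x U hU a
    set 𝒢 := (PF E0 K).filter fun F => (q : ℤ) ∣ a - eval x F with h𝒢
    have h1 : ((PF (Ex σ (d + 1)) K).filter fun F => eval x F = a).card ≤
        (𝒢.sigma fun G => (PF (Ex σ d) K).filter fun F => eval x F = (a - eval x G) / x i0).card := by
      refine card_le_card_of_injOn (fun F => ⟨F.modMonomial (Finsupp.single i0 1),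
        F.divMonomial (Finsupp.single i0 1)⟩) ?_ ?_
      · intro F hF
        rw [coe_filter, Set.mem_ofPred_eq, mem_PF] at hF
        have hdec := divMonomial_add_modMonomial_single F i0
        have hev : x i0 * eval x (F.divMonomial (Finsupp.single i0 1)) +
            eval x (F.modMonomial (Finsupp.single i0 1)) = a := by
          rw [← hF.2]
          conv_rhs => rw [← hdec]
          rw [map_add, map_mul, eval_X]
        rw [coe_sigma, Set.mem_sigma_iff]
        constructor
        · rw [h𝒢, coe_filter, Set.mem_ofPred_eq, mem_PF]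
          refine ⟨⟨?_, ?_⟩, ?_⟩
          · intro m hm
            by_cases hle : Finsupp.single i0 1 ≤ m
            · rw [coeff_modMonomial_of_le _ hle] at hm
              exact absurd rfl hm
            · rw [coeff_modMonomial_of_not_le _ hle] at hm
              rw [hE0, mem_filter]
              refine ⟨hF.1.1 m hm, ?_⟩
              rw [Finsupp.single_le_iff] at hle
              omega
          · intro m
            by_cases hle : Finsupp.single i0 1 ≤ m
            · rw [coeff_modMonomial_of_le _ hle]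
              simp
            · rw [coeff_modMonomial_of_not_le _ hle]
              exact hF.1.2 m
          · rw [← hev, add_sub_cancel_right]
            exact Dvd.dvd.mul_right hxq' _
        · rw [coe_filter, Set.mem_ofPred_eq, mem_PF]
          refine ⟨⟨?_, ?_⟩, ?_⟩
          · intro m hm
            rw [coeff_divMonomial] at hm
            have h2 := hF.1.1 _ hm
            rw [mem_Ex] at h2 ⊢
            simp only [Finsupp.add_apply, sum_add_distrib] at h2
            rw [Finset.sum_eq_single (f := fun i => (Finsupp.single i0 1 : σ →₀ ℕ) i) i0] at h2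
            · simp only [Finsupp.single_eq_same] at h2
              omega
            · intro b _ hb
              rw [Finsupp.single_apply, if_neg (Ne.symm hb)]
            · intro h; exact absurd (mem_univ _) h
          · intro m
            rw [coeff_divMonomial]
            exact hF.1.2 _
          · rw [← hev, add_sub_cancel_right, Int.mul_ediv_cancel_left _ hx0]
      · intro F _ G _ h
        simp only [Sigma.mk.injEq, heq_eq_eq] at h
        rw [← divMonomial_add_modMonomial_single F i0, ← divMonomial_add_modMonomial_single G i0,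
          h.1, h.2]
    rw [card_sigma] at h1
    have h2 : (((PF (Ex σ (d + 1)) K).filter fun F => eval x F = a).card : ℝ) ≤
        ∑ G ∈ 𝒢, (((PF (Ex σ d) K).filter fun F => eval x F = (a - eval x G) / x i0).card : ℝ) := by
      exact_mod_cast h1
    have h3 : (((PF (Ex σ (d + 1)) K).filter fun F => eval x F = a).card : ℝ) * (4 * K) * q ^ d ≤
        𝒢.card * (4 * K) ^ (Ex σ d).card := by
      calc _ ≤ (∑ G ∈ 𝒢, (((PF (Ex σ d) K).filter fun F =>
            eval x F = (a - eval x G) / x i0).card : ℝ)) * (4 * K) * q ^ d := by gcongr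
        _ = ∑ G ∈ 𝒢, (((PF (Ex σ d) K).filter fun F =>
            eval x F = (a - eval x G) / x i0).card : ℝ) * (4 * K) * q ^ d := by
            rw [sum_mul, sum_mul]
        _ ≤ ∑ _G ∈ 𝒢, ((4 * K : ℝ)) ^ (Ex σ d).card := sum_le_sum fun G _ => ih _
        _ = _ := by rw [sum_const, nsmul_eq_mul]
    rw [Ex_succ_card i0 d, ← hE0, pow_add (4 * (K : ℝ)) E0.card]
    calc (((PF (Ex σ (d + 1)) K).filter fun F => eval x F = a).card : ℝ) * (4 * K) * q ^ (d + 1)
        = ((((PF (Ex σ (d + 1)) K).filter fun F => eval x F = a).card : ℝ) * (4 * K) * q ^ d) * q := by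
          ring
      _ ≤ (𝒢.card * (4 * K) ^ (Ex σ d).card) * q := by gcongr
      _ ≤ (((4 * K) ^ E0.card / q) * (4 * K) ^ (Ex σ d).card) * q := by gcongr
      _ = _ := by field_simp

end Pool.Agent.K4H51.RD
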