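import Mathlib
import Pool.Agent.Y594.NT.Conv
import Pool.Agent.Helper112.Arith

set_option autoImplicit false

/-! counting tuples of integers whose product has a small radical; sums over sparse sets of points -/

namespace Pool.Agent.K4H51.RD

open Finset Pool.Agent.H785R2.ABC Pool.Agent.H705R2.ABC Pool.Agent.Y594.NT

theorem natAbs_prod' {r : ℕ} (m : Fin r → ℤ) : (∏ i, m i).natAbs = ∏ i, (m i).natAbs :=
  map_prod Int.natAbsHom m univ

theorem tuple_count (r : ℕ) (S : Finset ℕ) (ε : ℝ) (hε : 0 < ε) : ∃ C : ℝ, 0 < C ∧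
    ∀ (Y : ℕ) (R : ℝ), 1 ≤ Y → 0 ≤ R →
    (((Fintype.piFinset fun _ : Fin r => Icc (-(Y : ℤ)) Y).filter fun m =>
      (∀ i, m i ≠ 0) ∧ (radS S (∏ i, m i) : ℝ) ≤ R).card : ℝ) ≤ C * (Y : ℝ) ^ ε * R := by
  classical
  set δ : ℝ := ε / (r + r * r + 1) with hδ
  have hr0 : (0 : ℝ) < r + r * r + 1 := by positivity
  have hδ0 : 0 < δ := by positivity
  obtain ⟨D, hD, hB⟩ := Bset_card δ hδ0
  obtain ⟨C₂, hC₂, hdiv⟩ := Pool.Agent.Helper112.divisor_bound δ hδ0
  have hPS : (0 : ℝ) < PS S := by exact_mod_cast PS_pos S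
  refine ⟨D * PS S * (2 * C₂) ^ r, by positivity, ?_⟩
  intro Y R hY hR
  set T := (Fintype.piFinset fun _ : Fin r => Icc (-(Y : ℤ)) Y).filter fun m =>
      (∀ i, m i ≠ 0) ∧ (radS S (∏ i, m i) : ℝ) ≤ R with hT
  have hY0 : (0 : ℝ) < Y := by exact_mod_cast hY
  have hY1 : (1 : ℝ) ≤ Y := by exact_mod_cast hY
  have h1 : ∀ m ∈ T, (∏ i, m i).natAbs ∈ Bset (Y ^ r) (PS S * R) := by
    intro m hm
    rw [hT, mem_filter, Fintype.mem_piFinset] at hm
    rw [mem_Bset]
    refine ⟨⟨?_, ?_⟩, ?_⟩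
    · exact Int.natAbs_pos.2 (prod_ne_zero_iff.2 fun i _ => hm.2.1 i)
    · rw [natAbs_prod']
      calc ∏ i, (m i).natAbs ≤ ∏ _i : Fin r, Y := prod_le_prod' fun i _ => by
            have := hm.1 i
            rw [mem_Icc] at this
            omega
        _ = Y ^ r := by simp
    · calc (rad (∏ i, m i).natAbs : ℝ) ≤ PS S * radS S (∏ i, m i) := by
            exact_mod_cast rad_le_radS S (∏ i, m i)
        _ ≤ PS S * R := mul_le_mul_of_nonneg_left hm.2.2 hPS.le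
  have h2 : T.card = ∑ a ∈ Bset (Y ^ r) (PS S * R),
      (T.filter fun m => (∏ i, m i).natAbs = a).card := card_eq_sum_card_fiberwise h1
  have h3 : ∀ a ∈ Bset (Y ^ r) (PS S * R),
      ((T.filter fun m => (∏ i, m i).natAbs = a).card : ℝ) ≤ (2 * C₂ * ((Y : ℝ) ^ r) ^ δ) ^ r := by
    intro a ha
    rw [mem_Bset] at ha
    have h4 : (T.filter fun m => (∏ i, m i).natAbs = a) ⊆
        Fintype.piFinset fun _ : Fin r => a.divisors.image (fun d : ℕ => (d : ℤ)) ∪
          a.divisors.image (fun d : ℕ => -(d : ℤ)) := by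
      intro m hm
      rw [mem_filter, hT, mem_filter] at hm
      rw [Fintype.mem_piFinset]
      intro i
      have h5 : (m i).natAbs ∈ a.divisors := by
        rw [Nat.mem_divisors]
        refine ⟨?_, by omega⟩
        rw [← hm.2, natAbs_prod']
        exact dvd_prod_of_mem _ (mem_univ i)
      rw [mem_union]
      rcases Int.natAbs_eq (m i) with h6 | h6
      · exact Or.inl (mem_image.2 ⟨_, h5, h6.symm⟩)
      · exact Or.inr (mem_image.2 ⟨_, h5, h6.symm⟩)
    have h5 : (a.divisors.image (fun d : ℕ => (d : ℤ)) ∪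
          a.divisors.image (fun d : ℕ => -(d : ℤ))).card ≤ 2 * a.divisors.card := by
      refine (card_union_le _ _).trans ?_
      have h1 := card_image_le (s := a.divisors) (f := fun d : ℕ => (d : ℤ))
      have h2 := card_image_le (s := a.divisors) (f := fun d : ℕ => -(d : ℤ))
      omega
    have h6 := card_le_card h4
    rw [Fintype.card_piFinset, prod_const, card_univ, Fintype.card_fin] at h6
    have h7 : ((2 * a.divisors.card : ℕ) : ℝ) ≤ 2 * C₂ * ((Y : ℝ) ^ r) ^ δ := by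
      push_cast
      have h8 := hdiv a ha.1.1
      have h9 : (a : ℝ) ^ δ ≤ ((Y : ℝ) ^ r) ^ δ :=
        Real.rpow_le_rpow (Nat.cast_nonneg _) (by exact_mod_cast ha.1.2) hδ0.le
      nlinarith
    calc ((T.filter fun m => (∏ i, m i).natAbs = a).card : ℝ) ≤
        (((a.divisors.image (fun d : ℕ => (d : ℤ)) ∪
          a.divisors.image (fun d : ℕ => -(d : ℤ))).card ^ r : ℕ) : ℝ) := by exact_mod_cast h6
      _ ≤ (((2 * a.divisors.card) ^ r : ℕ) : ℝ) := by
          exact_mod_cast Nat.pow_le_pow_left h5 r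
      _ = ((2 * a.divisors.card : ℕ) : ℝ) ^ r := by push_cast; ring
      _ ≤ _ := pow_le_pow_left₀ (Nat.cast_nonneg _) h7 r
  have h4 : (T.card : ℝ) ≤ (Bset (Y ^ r) (PS S * R)).card * (2 * C₂ * ((Y : ℝ) ^ r) ^ δ) ^ r := by
    rw [h2]
    push_cast
    calc _ ≤ ∑ _a ∈ Bset (Y ^ r) (PS S * R), (2 * C₂ * ((Y : ℝ) ^ r) ^ δ) ^ r := sum_le_sum h3
      _ = _ := by rw [sum_const, nsmul_eq_mul]
  have h5 := hB (Y ^ r) (Nat.one_le_pow _ _ hY) (PS S * R) (by positivity)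
  push_cast at h5
  have h6 : ((Y : ℝ) ^ r) ^ δ = (Y : ℝ) ^ (r * δ) := by
    rw [← Real.rpow_natCast, ← Real.rpow_mul hY0.le]
  rw [h6] at h4 h5
  have h7 : ((Y : ℝ) ^ (r * δ)) * ((Y : ℝ) ^ (r * δ)) ^ r ≤ (Y : ℝ) ^ ε := by
    rw [← Real.rpow_natCast ((Y : ℝ) ^ (r * δ)), ← Real.rpow_mul hY0.le, ← Real.rpow_add hY0]
    apply Real.rpow_le_rpow_of_exponent_le hY1
    have h8 : (r + r * r + 1) * δ = ε := by rw [hδ]; field_simp
    nlinarith
  calc (T.card : ℝ) ≤ (Bset (Y ^ r) (PS S * R)).card * (2 * C₂ * (Y : ℝ) ^ (r * δ)) ^ r := h4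
    _ ≤ (D * (Y : ℝ) ^ (r * δ) * (PS S * R)) * (2 * C₂ * (Y : ℝ) ^ (r * δ)) ^ r := by gcongr
    _ = D * PS S * (2 * C₂) ^ r * (((Y : ℝ) ^ (r * δ)) * ((Y : ℝ) ^ (r * δ)) ^ r) * R := by
        rw [mul_pow]; ring
    _ ≤ D * PS S * (2 * C₂) ^ r * (Y : ℝ) ^ ε * R := by gcongr

theorem dyadic {α : Type} (E : Finset α) (s : α → ℕ) (β C₀ : ℝ) (hβ : 0 ≤ β)
    (K : ℕ) (hs : ∀ x ∈ E, 1 ≤ s x) (hK : ∀ x ∈ E, s x ≤ K)
    (h : ∀ B : ℕ, 1 ≤ B → ((E.filter fun x => s x ≤ B).card : ℝ) ≤ C₀ * (B : ℝ) ^ β) :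
    ∑ x ∈ E, (s x : ℝ) ^ (-β) ≤ C₀ * 2 ^ β * ((Nat.log 2 K : ℝ) + 1) := by
  classical
  have h1 : ∀ x ∈ E, Nat.log 2 (s x) ∈ range (Nat.log 2 K + 1) := by
    intro x hx
    rw [mem_range]
    exact Nat.lt_succ_of_le (Nat.log_mono_right (hK x hx))
  rw [← sum_fiberwise_of_maps_to h1]
  calc _ ≤ ∑ _k ∈ range (Nat.log 2 K + 1), C₀ * 2 ^ β := by
        refine sum_le_sum fun k _ => ?_
        have h2 : ∀ x ∈ E.filter (fun x => Nat.log 2 (s x) = k), (s x : ℝ) ^ (-β) ≤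
            ((2 : ℝ) ^ k) ^ (-β) := by
          intro x hx
          rw [mem_filter] at hx
          apply Real.rpow_le_rpow_of_nonpos (by positivity)
          · have := Nat.pow_log_le_self 2 (x := s x) (by have := hs x hx.1; omega)
            rw [hx.2] at this
            exact_mod_cast this
          · linarith
        have h3 : ((E.filter fun x => Nat.log 2 (s x) = k).card : ℝ) ≤
            C₀ * (((2 ^ (k + 1) : ℕ)) : ℝ) ^ β := by
          refine le_trans ?_ (h (2 ^ (k + 1)) (Nat.one_le_two_pow))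
          have h4 : (E.filter fun x => Nat.log 2 (s x) = k) ⊆ E.filter fun x => s x ≤ 2 ^ (k + 1) := by
            intro x hx
            rw [mem_filter] at hx ⊢
            refine ⟨hx.1, ?_⟩
            have := Nat.lt_pow_succ_log_self (b := 2) (by norm_num) (s x)
            rw [hx.2] at this
            exact this.le
          exact_mod_cast card_le_card h4
        calc ∑ x ∈ E.filter (fun x => Nat.log 2 (s x) = k), (s x : ℝ) ^ (-β)
            ≤ ∑ _x ∈ E.filter (fun x => Nat.log 2 (s x) = k), ((2 : ℝ) ^ k) ^ (-β) := sum_le_sum h2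
          _ = (E.filter fun x => Nat.log 2 (s x) = k).card * ((2 : ℝ) ^ k) ^ (-β) := by
              rw [sum_const, nsmul_eq_mul]
          _ ≤ (C₀ * (((2 ^ (k + 1) : ℕ)) : ℝ) ^ β) * ((2 : ℝ) ^ k) ^ (-β) := by gcongr
          _ = C₀ * 2 ^ β := by
              push_cast
              rw [pow_succ, Real.mul_rpow (by positivity) (by positivity), Real.rpow_neg (by positivity)]
              have : ((2 : ℝ) ^ k) ^ β ≠ 0 := (Real.rpow_pos_of_pos (by positivity) _).ne'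
              field_simp
    _ = C₀ * 2 ^ β * ((Nat.log 2 K : ℝ) + 1) := by
        rw [sum_const, card_range, nsmul_eq_mul]
        push_cast
        ring

/-- logarithms are smaller than powers -/
theorem log_small (δ : ℝ) (hδ : 0 < δ) : ∃ C : ℝ, 0 < C ∧ ∀ K : ℕ, 1 ≤ K →
    (Nat.log 2 K : ℝ) + 1 ≤ C * (K : ℝ) ^ δ := by
  refine ⟨2 / (δ * Real.log 2) + 1, by positivity, ?_⟩
  intro K hK
  have hK0 : (0 : ℝ) < K := by exact_mod_cast hK
  have h1 : (Nat.log 2 K : ℝ) ≤ Real.logb 2 K := by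
    rw [Real.le_logb_iff_rpow_le (by norm_num) hK0]
    have := Nat.pow_log_le_self 2 (x := K) (by omega)
    rw [Real.rpow_natCast]
    exact_mod_cast this
  have h2 : Real.log K ≤ (K : ℝ) ^ δ / δ := Real.log_le_rpow_div hK0.le hδ
  have h3 : (1 : ℝ) ≤ (K : ℝ) ^ δ := Real.one_le_rpow (by exact_mod_cast hK) hδ.le
  have hl2 : 0 < Real.log 2 := Real.log_pos (by norm_num)
  have h4 : Real.logb 2 K ≤ 2 / (δ * Real.log 2) * (K : ℝ) ^ δ := by
    unfold Real.logb
    rw [div_le_iff₀ hl2]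
    have h5 : 2 / (δ * Real.log 2) * (K : ℝ) ^ δ * Real.log 2 = 2 * ((K : ℝ) ^ δ / δ) := by
      field_simp
    rw [h5]
    have : 0 ≤ (K : ℝ) ^ δ / δ := by positivity
    linarith
  nlinarith

end Pool.Agent.K4H51.RD
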