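import Mathlib
import Pool.Agent.K4H51.RD.B
import Pool.Agent.K4H51.RD.C

set_option autoImplicit false

/-! forms with small truncated counting function at some point of a sparse set -/

namespace Pool.Agent.K4H51.RD

open Finset MvPolynomial Pool.Agent.Y594.NT

/-- tuples of forms of degrees `d i` with integer coefficients bounded by `H` -/
def Forms (n r : ℕ) (d : Fin r → ℕ) (H : ℝ) : Set (Fin r → MvPolynomial (Fin (n + 1)) ℤ) :=
  {F | ∀ i, (F i).IsHomogeneous (d i) ∧ ∀ m, |(((F i).coeff m : ℤ) : ℝ)| ≤ H}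

theorem Forms_eq (n r : ℕ) (d : Fin r → ℕ) (H : ℝ) (hH : 0 ≤ H) :
    Forms n r d H = ↑(Fintype.piFinset fun i => PF (Ex (Fin (n + 1)) (d i)) ⌊H⌋₊) := by
  ext F
  rw [mem_coe, Fintype.mem_piFinset]
  unfold Forms
  rw [Set.mem_ofPred_eq]
  refine forall_congr' fun i => ?_
  rw [mem_PF]
  have h1 : ∀ z : ℤ, |(z : ℝ)| ≤ H ↔ |z| ≤ (⌊H⌋₊ : ℤ) := by
    intro z
    rw [Int.abs_eq_natAbs, Nat.cast_le, Nat.le_floor_iff hH, Nat.cast_natAbs, Int.cast_abs]
  constructor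
  · rintro ⟨h2, h3⟩
    exact ⟨hom_Ex h2, fun m => (h1 _).1 (h3 m)⟩
  · rintro ⟨h2, h3⟩
    refine ⟨?_, fun m => (h1 _).2 (h3 m)⟩
    intro m hm
    have h4 := h2 m hm
    rw [mem_Ex] at h4
    rw [← h4, ← Finsupp.degree_eq_sum]
    exact (Finsupp.degree_eq_weight_one (R := ℕ) ▸ rfl)

theorem Forms_card (n r : ℕ) (d : Fin r → ℕ) (H : ℝ) (hH : 0 ≤ H) :
    (Forms n r d H).ncard = (2 * ⌊H⌋₊ + 1) ^ (∑ i, (Ex (Fin (n + 1)) (d i)).card) := by
  rw [Forms_eq n r d H hH, Set.ncard_coe_finset, Fintype.card_piFinset, ← Finset.prod_pow_eq_pow_sum]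
  exact prod_congr rfl fun i _ => PF_card _ _

theorem value_bound {σ : Type} [Fintype σ] [DecidableEq σ] (d q K : ℕ) (x : σ → ℤ)
    (hx : ∀ i, (x i).natAbs ≤ q) (F : MvPolynomial σ ℤ) (hF : F ∈ PF (Ex σ d) K) :
    |eval x F| ≤ ((Ex σ d).card * K * q ^ d : ℕ) := by
  rw [mem_PF] at hF
  rw [eval_sum hF.1]
  refine (abs_sum_le_sum_abs _ _).trans ?_
  have h1 : ∀ m ∈ Ex σ d, |coeff m F * ∏ i, x i ^ m i| ≤ ((K * q ^ d : ℕ) : ℤ) := by
    intro m hm
    rw [mem_Ex] at hm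
    rw [abs_mul, abs_prod]
    push_cast
    have h2 : ∏ i, |x i ^ m i| ≤ (q : ℤ) ^ d := by
      calc ∏ i, |x i ^ m i| ≤ ∏ i, (q : ℤ) ^ m i := by
            refine prod_le_prod (fun i _ => abs_nonneg _) fun i _ => ?_
            rw [abs_pow]
            refine pow_le_pow_left₀ (abs_nonneg _) ?_ _
            rw [Int.abs_eq_natAbs]
            exact_mod_cast hx i
        _ = (q : ℤ) ^ d := by rw [prod_pow_eq_pow_sum, hm]
    exact mul_le_mul (hF.2 m) h2 (prod_nonneg fun i _ => abs_nonneg _) (by positivity)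
  refine (sum_le_sum h1).trans ?_
  rw [sum_const, nsmul_eq_mul]
  push_cast
  exact le_of_eq (by ring)

theorem radS_lt_of_N1 (S : Finset ℕ) (a : ℤ) (t : ℝ) (h : N1 S a < t) :
    (radS S a : ℝ) ≤ Real.exp t := by
  rw [N1_eq] at h
  have h1 : (0 : ℝ) < radS S a := by have := one_le_radS S a; linarith
  rw [← Real.exp_log h1]
  exact Real.exp_le_exp.2 h.le

theorem bad_count (n r : ℕ) (d : Fin r → ℕ) (S : Finset ℕ)
    (β C₀ : ℝ) (hβ : 0 ≤ β) (hC₀ : 0 ≤ C₀)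
    (ε : ℝ) (hε : 0 < ε) : ∃ η : ℝ, 0 < η ∧ ∃ C : ℝ, 0 ≤ C ∧
    ∀ (X : Set (Fin (n + 1) → ℤ)), (∀ x ∈ X, univ.gcd x = 1) →
    (∀ T : ℝ, 0 ≤ T → ({x ∈ X | ht x ≤ T}.ncard : ℝ) ≤ C₀ * Real.exp (β * T)) →
    ∀ H : ℝ, 1 ≤ H →
    ({F ∈ Forms n r d H | ∃ x ∈ X, ht x ≤ Real.log H ∧ (∀ i, eval x (F i) ≠ 0) ∧
      N1 S (∏ i, eval x (F i)) < ((∑ i, d i : ℕ) - β - ε) * ht x + (r - ε) * Real.log H}.ncard : ℝ)
      ≤ C * H ^ (-η) * (Forms n r d H).ncard := by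
  classical
  obtain ⟨D, hD⟩ : ∃ D : ℕ, D = ∑ i, d i := ⟨_, rfl⟩
  obtain ⟨N, hN⟩ : ∃ N : ℕ, N = ∑ i, (Ex (Fin (n + 1)) (d i)).card := ⟨_, rfl⟩
  rw [← hD]
  set δ : ℝ := ε / (4 * (D + 1)) with hδ
  have hδ0 : 0 < δ := by positivity
  obtain ⟨C₁, hC₁, htup⟩ := tuple_count r S δ hδ0
  obtain ⟨C₂, hC₂, hlog⟩ := log_small (ε / 4) (by positivity)
  refine ⟨ε / 2, by positivity, C₁ * ((N : ℝ) + 1) ^ δ * 4 ^ N * (C₀ * 2 ^ β * C₂),
    by positivity, ?_⟩
  intro X hX1 hX H hH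
  have hH0 : (0 : ℝ) < H := by linarith
  obtain ⟨K, hK⟩ : ∃ K : ℕ, K = ⌊H⌋₊ := ⟨_, rfl⟩
  have hK1 : 1 ≤ K := by rw [hK]; exact Nat.le_floor (by exact_mod_cast hH)
  have hK1' : (1 : ℝ) ≤ K := by exact_mod_cast hK1
  have hK0 : (0 : ℝ) < K := by linarith
  have hKH : (K : ℝ) ≤ H := by rw [hK]; exact Nat.floor_le hH0.le
  have hHK : H ≤ 4 * K := by
    have := Nat.lt_floor_add_one H
    rw [← hK] at this
    linarith
  obtain ⟨Y, hY⟩ : ∃ Y : ℕ, Y = (N + 1) * K ^ (D + 1) := ⟨_, rfl⟩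
  have hY1 : 1 ≤ Y := by
    rw [hY]
    exact Nat.mul_pos (Nat.succ_pos _) (pow_pos hK1 _)
  set q : (Fin (n + 1) → ℤ) → ℕ := fun x => univ.sup fun j => (x j).natAbs with hq
  have hhtq : ∀ x, ht x = Real.log (q x) := fun x => rfl
  have hq1 : ∀ x ∈ X, 1 ≤ q x := fun x hx => sup_pos (hX1 x hx)
  set PX : Finset (Fin (n + 1) → ℤ) :=
    (Fintype.piFinset fun _ : Fin (n + 1) => Icc (-(K : ℤ)) K).filter fun x => x ∈ X with hPX
  have hPXq : ∀ x ∈ PX, q x ≤ K := by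
    intro x hx
    rw [hPX, mem_filter, Fintype.mem_piFinset] at hx
    refine Finset.sup_le fun j _ => ?_
    have := hx.1 j
    rw [mem_Icc] at this
    omega
  have hPXX : ∀ x ∈ PX, x ∈ X := fun x hx => (mem_filter.1 hx).2
  set R : (Fin (n + 1) → ℤ) → ℝ := fun x =>
    Real.exp (((D : ℕ) - β - ε) * ht x + (r - ε) * Real.log H) with hR
  set Tx : (Fin (n + 1) → ℤ) → Finset (Fin r → ℤ) := fun x =>
    (Fintype.piFinset fun _ : Fin r => Icc (-(Y : ℤ)) Y).filter fun m =>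
      (∀ i, m i ≠ 0) ∧ (radS S (∏ i, m i) : ℝ) ≤ R x with hTx
  set P : (Fin (n + 1) → ℤ) → (Fin r → ℤ) → Finset (Fin r → MvPolynomial (Fin (n + 1)) ℤ) :=
    fun x m => Fintype.piFinset fun i =>
      (PF (Ex (Fin (n + 1)) (d i)) K).filter fun F => eval x F = m i with hP
  -- the bad set is covered
  have hcov : {F ∈ Forms n r d H | ∃ x ∈ X, ht x ≤ Real.log H ∧ (∀ i, eval x (F i) ≠ 0) ∧
      N1 S (∏ i, eval x (F i)) < ((D : ℕ) - β - ε) * ht x + (r - ε) * Real.log H} ⊆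
      ↑(PX.biUnion fun x => (Tx x).biUnion fun m => P x m) := by
    rintro F ⟨hF, x, hxX, hxH, hx0, hxN⟩
    rw [Forms_eq n r d H hH0.le, mem_coe, Fintype.mem_piFinset, ← hK] at hF
    rw [mem_coe, mem_biUnion]
    have hqx : (q x : ℝ) ≤ H := by
      rw [hhtq] at hxH
      exact (Real.log_le_log_iff (by exact_mod_cast hq1 x hxX) hH0).1 hxH
    have hqK : q x ≤ K := by rw [hK]; exact Nat.le_floor hqx
    have hxq : ∀ j, (x j).natAbs ≤ q x := fun j =>
      le_sup (f := fun j => (x j).natAbs) (mem_univ j)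
    refine ⟨x, ?_, ?_⟩
    · rw [hPX, mem_filter, Fintype.mem_piFinset]
      refine ⟨fun j => ?_, hxX⟩
      rw [mem_Icc]
      have := hxq j
      omega
    · rw [mem_biUnion]
      refine ⟨fun i => eval x (F i), ?_, ?_⟩
      · rw [hTx, mem_filter, Fintype.mem_piFinset]
        refine ⟨fun i => ?_, hx0, radS_lt_of_N1 S _ _ hxN⟩
        rw [mem_Icc]
        apply abs_le.1
        refine (value_bound (d i) (q x) K x hxq (F i) (hF i)).trans ?_
        rw [Nat.cast_le, hY]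
        have h1 : (Ex (Fin (n + 1)) (d i)).card ≤ N + 1 := by
          rw [hN]
          exact (single_le_sum (f := fun i => (Ex (Fin (n + 1)) (d i)).card)
            (fun i _ => Nat.zero_le _) (mem_univ i)).trans (Nat.le_succ _)
        have h2 : d i ≤ D := by
          rw [hD]
          exact single_le_sum (f := d) (fun i _ => Nat.zero_le _) (mem_univ i)
        calc (Ex (Fin (n + 1)) (d i)).card * K * q x ^ d i ≤ (N + 1) * K * K ^ D := by
              gcongr ?_ * _ * ?_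
              exact (Nat.pow_le_pow_left hqK _).trans (Nat.pow_le_pow_right hK1 h2)
          _ = (N + 1) * K ^ (D + 1) := by ring
      · rw [hP, Fintype.mem_piFinset]
        intro i
        rw [mem_filter]
        exact ⟨hF i, rfl⟩
  -- the number of tuples with given values
  have hPcard : ∀ x ∈ PX, ∀ m, ((P x m).card : ℝ) ≤ (4 * K) ^ N / ((4 * K) ^ r * (q x : ℝ) ^ D) := by
    intro x hx m
    have hxX := hPXX x hx
    have hq1x := hq1 x hxX
    have hq0x : (0 : ℝ) < q x := by exact_mod_cast hq1x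
    obtain ⟨i0, -, hi0⟩ := exists_mem_eq_sup univ (univ_nonempty (α := Fin (n + 1)))
      (fun j => (x j).natAbs)
    have h1 : ∀ i, (((PF (Ex (Fin (n + 1)) (d i)) K).filter fun F => eval x F = m i).card : ℝ) ≤
        (4 * K) ^ (Ex (Fin (n + 1)) (d i)).card / ((4 * K) * (q x : ℝ) ^ d i) := by
      intro i
      rw [le_div_iff₀ (by positivity), ← mul_assoc]
      exact value_count i0 (q x) K hq1x (hPXq x hx) x (hX1 x hxX) hi0.symm (d i) (m i)
    rw [hP, Fintype.card_piFinset]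
    push_cast
    refine (prod_le_prod (fun i _ => Nat.cast_nonneg _) fun i _ => h1 i).trans (le_of_eq ?_)
    rw [prod_div_distrib, prod_pow_eq_pow_sum, prod_mul_distrib, prod_pow_eq_pow_sum, prod_const,
      card_univ, Fintype.card_fin, ← hN, ← hD]
  -- the number for one point
  have hxcard : ∀ x ∈ PX, (((Tx x).biUnion fun m => P x m).card : ℝ) ≤
      (C₁ * (Y : ℝ) ^ δ * (4 * K) ^ N * H ^ (-ε)) * (q x : ℝ) ^ (-β) := by
    intro x hx
    have hxX := hPXX x hx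
    have hq1x := hq1 x hxX
    have hq0x : (0 : ℝ) < q x := by exact_mod_cast hq1x
    have hq1x' : (1 : ℝ) ≤ q x := by exact_mod_cast hq1x
    have h1 : (((Tx x).biUnion fun m => P x m).card : ℝ) ≤
        (Tx x).card * ((4 * K) ^ N / ((4 * K) ^ r * (q x : ℝ) ^ D)) := by
      calc (((Tx x).biUnion fun m => P x m).card : ℝ) ≤ ((∑ m ∈ Tx x, (P x m).card : ℕ) : ℝ) := by
            exact_mod_cast card_biUnion_le
        _ = ∑ m ∈ Tx x, ((P x m).card : ℝ) := by push_cast; rfl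
        _ ≤ ∑ _m ∈ Tx x, ((4 * K) ^ N / ((4 * K) ^ r * (q x : ℝ) ^ D)) :=
            sum_le_sum fun m _ => hPcard x hx m
        _ = _ := by rw [sum_const, nsmul_eq_mul]
    have h2 : ((Tx x).card : ℝ) ≤ C₁ * (Y : ℝ) ^ δ * R x := htup Y (R x) hY1 (Real.exp_pos _).le
    have h3 : R x ≤ (q x : ℝ) ^ D * (q x : ℝ) ^ (-β) * (H ^ r * H ^ (-ε)) := by
      have e1 : R x = (q x : ℝ) ^ ((D : ℝ) - β - ε) * H ^ ((r : ℝ) - ε) := by
        rw [hR]
        simp only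
        rw [Real.exp_add, hhtq, mul_comm _ (Real.log (q x : ℝ)), mul_comm _ (Real.log H),
          ← Real.rpow_def_of_pos hq0x, ← Real.rpow_def_of_pos hH0]
      rw [e1, ← Real.rpow_natCast (q x : ℝ) D, ← Real.rpow_add hq0x, ← Real.rpow_natCast H r,
        ← Real.rpow_add hH0]
      apply mul_le_mul
      · apply Real.rpow_le_rpow_of_exponent_le hq1x'
        linarith
      · exact le_of_eq (by rw [sub_eq_add_neg])
      · positivity
      · positivity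
    have h4 : (H : ℝ) ^ r ≤ (4 * K) ^ r := pow_le_pow_left₀ hH0.le hHK r
    calc _ ≤ _ := h1
      _ ≤ (C₁ * (Y : ℝ) ^ δ * R x) * ((4 * K) ^ N / ((4 * K) ^ r * (q x : ℝ) ^ D)) := by gcongr
      _ ≤ (C₁ * (Y : ℝ) ^ δ * ((q x : ℝ) ^ D * (q x : ℝ) ^ (-β) * ((4 * K) ^ r * H ^ (-ε)))) *
          ((4 * K) ^ N / ((4 * K) ^ r * (q x : ℝ) ^ D)) := by
          gcongr
          refine h3.trans ?_
          gcongr
      _ = _ := by field_simp
  -- sum over the points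
  have hsum : ∑ x ∈ PX, (q x : ℝ) ^ (-β) ≤ C₀ * 2 ^ β * ((Nat.log 2 K : ℝ) + 1) := by
    refine dyadic PX q β C₀ hβ K (fun x hx => hq1 x (hPXX x hx)) hPXq ?_
    intro B hB
    have hB0 : (0 : ℝ) < B := by exact_mod_cast hB
    have h1 := hX (Real.log B) (Real.log_nonneg (by exact_mod_cast hB))
    rw [mul_comm β, ← Real.rpow_def_of_pos hB0] at h1
    refine le_trans ?_ h1
    have hfin : {x ∈ X | ht x ≤ Real.log B}.Finite :=
      (finite_ht (Real.log B)).subset fun x hx => ⟨hX1 x hx.1, hx.2⟩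
    have hsub : (↑(PX.filter fun x => q x ≤ B) : Set (Fin (n + 1) → ℤ)) ⊆
        {x ∈ X | ht x ≤ Real.log B} := by
      intro x hx
      rw [mem_coe, mem_filter] at hx
      refine ⟨hPXX x hx.1, ?_⟩
      rw [hhtq]
      exact Real.log_le_log (by exact_mod_cast hq1 x (hPXX x hx.1)) (by exact_mod_cast hx.2)
    have h2 := Set.ncard_le_ncard hsub hfin
    rw [Set.ncard_coe_finset] at h2
    exact_mod_cast h2
  have hYδ : (Y : ℝ) ^ δ ≤ ((N : ℝ) + 1) ^ δ * H ^ (ε / 4) := by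
    rw [hY]
    push_cast
    rw [Real.mul_rpow (by positivity) (by positivity), ← Real.rpow_natCast, ← Real.rpow_mul hK0.le]
    have e1 : ((D + 1 : ℕ) : ℝ) * δ = ε / 4 := by
      rw [hδ]; push_cast; field_simp
    rw [e1]
    gcongr
  have hlogK : (Nat.log 2 K : ℝ) + 1 ≤ C₂ * H ^ (ε / 4) := by
    refine (hlog K hK1).trans ?_
    gcongr
  have h4N : ((4 : ℝ) * K) ^ N ≤ 4 ^ N * (Forms n r d H).ncard := by
    rw [Forms_card n r d H hH0.le, ← hN, ← hK, mul_pow]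
    push_cast
    gcongr
    linarith
  have hfinal : ({F ∈ Forms n r d H | ∃ x ∈ X, ht x ≤ Real.log H ∧ (∀ i, eval x (F i) ≠ 0) ∧
      N1 S (∏ i, eval x (F i)) < ((D : ℕ) - β - ε) * ht x + (r - ε) * Real.log H}.ncard : ℝ) ≤
      ((PX.biUnion fun x => (Tx x).biUnion fun m => P x m).card : ℝ) := by
    rw [← Set.ncard_coe_finset]
    exact_mod_cast Set.ncard_le_ncard hcov (Finset.finite_toSet _)
  have hnn : (0 : ℝ) ≤ (Forms n r d H).ncard := Nat.cast_nonneg _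
  calc _ ≤ _ := hfinal
    _ ≤ ((∑ x ∈ PX, ((Tx x).biUnion fun m => P x m).card : ℕ) : ℝ) := by
        exact_mod_cast card_biUnion_le
    _ = ∑ x ∈ PX, (((Tx x).biUnion fun m => P x m).card : ℝ) := by push_cast; rfl
    _ ≤ ∑ x ∈ PX, (C₁ * (Y : ℝ) ^ δ * (4 * K) ^ N * H ^ (-ε)) * (q x : ℝ) ^ (-β) :=
        sum_le_sum hxcard
    _ = (C₁ * (Y : ℝ) ^ δ * (4 * K) ^ N * H ^ (-ε)) * ∑ x ∈ PX, (q x : ℝ) ^ (-β) := by
        rw [mul_sum]
    _ ≤ (C₁ * (((N : ℝ) + 1) ^ δ * H ^ (ε / 4)) * (4 ^ N * (Forms n r d H).ncard) * H ^ (-ε)) *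
        (C₀ * 2 ^ β * (C₂ * H ^ (ε / 4))) := by
        gcongr
        exact hsum.trans (by gcongr)
    _ = C₁ * ((N : ℝ) + 1) ^ δ * 4 ^ N * (C₀ * 2 ^ β * C₂) *
        (H ^ (ε / 4) * H ^ (-ε) * H ^ (ε / 4)) * (Forms n r d H).ncard := by ring
    _ = _ := by
        rw [← Real.rpow_add hH0, ← Real.rpow_add hH0]
        congr 3
        ring

/-- the number of all points of bounded height -/
theorem all_points (n : ℕ) (T : ℝ) (hT : 0 ≤ T) :
    ({x ∈ {x : Fin (n + 1) → ℤ | univ.gcd x = 1} | ht x ≤ T}.ncard : ℝ) ≤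
      3 ^ (n + 1) * Real.exp (((n : ℝ) + 1) * T) := by
  have h1 : (1 : ℝ) ≤ Real.exp T := Real.one_le_exp hT
  set B : ℕ := ⌊Real.exp T⌋₊ with hB
  have hB1 : 1 ≤ B := Nat.le_floor (by exact_mod_cast h1)
  have hBT : (B : ℝ) ≤ Real.exp T := Nat.floor_le (by positivity)
  have h2 : {x ∈ {x : Fin (n + 1) → ℤ | univ.gcd x = 1} | ht x ≤ T} ⊆
      ↑(Fintype.piFinset fun _ : Fin (n + 1) => Icc (-(B : ℤ)) B) := by
    rintro x ⟨hx, hxT⟩
    rw [mem_coe, Fintype.mem_piFinset]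
    intro j
    have h1 : (0 : ℝ) < ((univ.sup fun j => (x j).natAbs : ℕ) : ℝ) := by
      exact_mod_cast sup_pos hx
    have h2 : ((univ.sup fun j => (x j).natAbs : ℕ) : ℝ) ≤ Real.exp T := by
      rw [← Real.exp_log h1]
      exact Real.exp_le_exp.2 hxT
    have h3 : (x j).natAbs ≤ B := by
      apply Nat.le_floor
      refine le_trans ?_ h2
      exact_mod_cast le_sup (f := fun j => (x j).natAbs) (mem_univ j)
    rw [mem_Icc]
    omega
  have h3 := Set.ncard_le_ncard h2 (Finset.finite_toSet _)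
  rw [Set.ncard_coe_finset, Fintype.card_piFinset, prod_const, card_univ, Fintype.card_fin,
    Int.card_Icc] at h3
  have h4 : ((B : ℤ) + 1 - (-(B : ℤ))).toNat ≤ 3 * B := by omega
  calc _ ≤ (((((B : ℤ) + 1 - (-(B : ℤ))).toNat) ^ (n + 1) : ℕ) : ℝ) := by exact_mod_cast h3
    _ ≤ (((3 * B) ^ (n + 1) : ℕ) : ℝ) := by exact_mod_cast Nat.pow_le_pow_left h4 _
    _ = 3 ^ (n + 1) * (B : ℝ) ^ (n + 1) := by push_cast; ring
    _ ≤ 3 ^ (n + 1) * (Real.exp T) ^ (n + 1) := by gcongr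
    _ = _ := by
        rw [← Real.exp_nat_mul]
        push_cast
        rfl

end Pool.Agent.K4H51.RD
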