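import Mathlib
import Pool.Agent.K4H51.RD.E

set_option autoImplicit false

/-! the number of forms with coprime coefficients -/

namespace Pool.Agent.K4H51.RD

open Finset MvPolynomial Pool.Agent.Y594.NT

theorem totient_lower (δ : ℝ) (hδ : 0 < δ) : ∃ c : ℝ, 0 < c ∧ ∀ n : ℕ, 1 ≤ n →
    c * n ≤ (Nat.totient n : ℝ) * (n : ℝ) ^ δ := by
  obtain ⟨C, hC, h⟩ := Pool.Agent.Helper112.divisor_bound δ hδ
  refine ⟨1 / C, by positivity, fun n hn => ?_⟩
  have h1 : (n : ℝ) ≤ n.totient * n.divisors.card := by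
    have h2 : n = ∑ d ∈ n.divisors, d.totient := (Nat.sum_totient n).symm
    have h3 : ∑ d ∈ n.divisors, d.totient ≤ ∑ _d ∈ n.divisors, n.totient := by
      refine sum_le_sum fun d hd => ?_
      exact Nat.le_of_dvd (Nat.totient_pos.2 hn) (Nat.totient_dvd_of_dvd (Nat.dvd_of_mem_divisors hd))
    rw [sum_const, smul_eq_mul, ← h2, mul_comm] at h3
    exact_mod_cast h3
  have h4 := h n hn
  rw [one_div, inv_mul_le_iff₀ hC]
  calc (n : ℝ) ≤ n.totient * n.divisors.card := h1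
    _ ≤ n.totient * (C * (n : ℝ) ^ δ) := by gcongr
    _ = _ := by ring

/-- the number of coprime pairs -/
theorem pairs_lower (δ : ℝ) (hδ : 0 < δ) : ∃ c : ℝ, 0 < c ∧ ∀ K : ℕ, 1 ≤ K →
    c * (K : ℝ) ^ 2 ≤ (((Icc (-(K : ℤ)) K ×ˢ Icc (-(K : ℤ)) K).filter fun z =>
      IsCoprime z.1 z.2).card : ℝ) * (K : ℝ) ^ δ := by
  classical
  obtain ⟨c, hc, h⟩ := totient_lower δ hδ
  refine ⟨c / 2, by positivity, fun K hK => ?_⟩
  have hK0 : (0 : ℝ) < K := by exact_mod_cast hK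
  have h1 : ∑ b ∈ Icc 1 K, b.totient ≤ ((Icc (-(K : ℤ)) K ×ˢ Icc (-(K : ℤ)) K).filter fun z =>
      IsCoprime z.1 z.2).card := by
    have h2 : ∑ b ∈ Icc 1 K, b.totient =
        ((Icc 1 K).sigma fun b => (range b).filter fun a => b.Coprime a).card := by
      rw [card_sigma]
      exact sum_congr rfl fun b _ => rfl
    rw [h2]
    refine card_le_card_of_injOn (fun z => ((z.1 : ℤ), (z.2 : ℤ))) ?_ ?_
    · rintro ⟨b, a⟩ hz
      simp only [coe_sigma, Set.mem_sigma_iff, mem_coe, mem_Icc, mem_filter, mem_range] at hz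
      simp only [coe_filter, mem_product, mem_Icc, Set.mem_ofPred_eq]
      refine ⟨⟨by omega, by omega⟩, ?_⟩
      exact Nat.isCoprime_iff_coprime.2 hz.2.2
    · rintro ⟨b, a⟩ _ ⟨b', a'⟩ _ h
      simp only [Prod.mk.injEq, Nat.cast_inj] at h
      rw [h.1, h.2]
  have h2 : c * ((K : ℝ) ^ 2 / 2) ≤ (∑ b ∈ Icc 1 K, (b.totient : ℝ)) * (K : ℝ) ^ δ := by
    have h3 : ∀ b ∈ Icc 1 K, c * (b : ℝ) ≤ (b.totient : ℝ) * (K : ℝ) ^ δ := by
      intro b hb
      rw [mem_Icc] at hb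
      refine (h b hb.1).trans ?_
      gcongr
      exact hb.2
    have h4 := sum_le_sum h3
    rw [← mul_sum, ← sum_mul] at h4
    refine le_trans ?_ h4
    have h5 : (K : ℝ) ^ 2 / 2 ≤ ∑ b ∈ Icc 1 K, (b : ℝ) := by
      have h6 : ∀ K : ℕ, (K : ℝ) ^ 2 / 2 ≤ ∑ b ∈ Icc 1 K, (b : ℝ) := by
        intro K
        induction K with
        | zero => simp
        | succ K ih =>
          rw [sum_Icc_succ_top (by omega)]
          push_cast
          have : (0 : ℝ) ≤ K := Nat.cast_nonneg _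
          nlinarith
      exact h6 K
    exact mul_le_mul_of_nonneg_left h5 hc.le
  calc c / 2 * (K : ℝ) ^ 2 = c * ((K : ℝ) ^ 2 / 2) := by ring
    _ ≤ _ := h2
    _ ≤ _ := by
        apply mul_le_mul_of_nonneg_right _ (by positivity)
        exact_mod_cast h1

/-- forms in which two given coefficients are coprime -/
theorem PF_pairs {σ : Type} [Fintype σ] [DecidableEq σ] (E : Finset (σ →₀ ℕ)) (K : ℕ)
    (m₀ m₁ : σ →₀ ℕ) (h₀ : m₀ ∈ E) (h₁ : m₁ ∈ E) (hne : m₀ ≠ m₁) :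
    ((PF E K).filter fun F => IsCoprime (coeff m₀ F) (coeff m₁ F)).card =
      ((Icc (-(K : ℤ)) K ×ˢ Icc (-(K : ℤ)) K).filter fun z => IsCoprime z.1 z.2).card *
        (2 * K + 1) ^ (E.card - 2) := by
  classical
  set A := (Icc (-(K : ℤ)) K ×ˢ Icc (-(K : ℤ)) K).filter fun z => IsCoprime z.1 z.2 with hA
  have h1 : ∀ F ∈ (PF E K).filter fun F => IsCoprime (coeff m₀ F) (coeff m₁ F),
      (coeff m₀ F, coeff m₁ F) ∈ A := by
    intro F hF
    rw [mem_filter, mem_PF] at hF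
    rw [hA, mem_filter, mem_product, mem_Icc, mem_Icc]
    exact ⟨⟨abs_le.1 (hF.1.2 m₀), abs_le.1 (hF.1.2 m₁)⟩, hF.2⟩
  rw [card_eq_sum_card_fiberwise h1]
  rw [← smul_eq_mul, ← sum_const]
  refine sum_congr rfl ?_
  rintro ⟨a, b⟩ hab
  rw [hA, mem_filter, mem_product] at hab
  have hcount : (Fintype.piFinset fun m : E => if m.1 = m₀ then {a} else if m.1 = m₁ then {b} else
      Icc (-(K : ℤ)) K).card = (2 * K + 1) ^ (E.card - 2) := by
    rw [Fintype.card_piFinset]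
    rw [Finset.prod_coe_sort E (fun m => (if m = m₀ then {a} else if m = m₁ then {b} else
      Icc (-(K : ℤ)) K : Finset ℤ).card)]
    rw [← Finset.mul_prod_erase E _ h₀, ← Finset.mul_prod_erase (E.erase m₀) _
      (mem_erase.2 ⟨hne.symm, h₁⟩)]
    rw [if_pos rfl, if_neg hne.symm, if_pos rfl, card_singleton, card_singleton, one_mul, one_mul]
    rw [prod_congr rfl (g := fun _ => 2 * K + 1), prod_const, card_erase_of_mem
      (mem_erase.2 ⟨hne.symm, h₁⟩), card_erase_of_mem h₀]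
    · congr 1
    · intro m hm
      rw [mem_erase, mem_erase] at hm
      rw [if_neg hm.2.1, if_neg hm.1, Int.card_Icc]
      omega
  rw [← hcount]
  refine card_bij (fun F _ => fun m : E => coeff m.1 F) ?_ ?_ ?_
  · intro F hF
    rw [mem_filter, mem_filter, mem_PF, Prod.mk.injEq] at hF
    rw [Fintype.mem_piFinset]
    intro m
    split_ifs with h2 h3
    · rw [mem_singleton, h2]; exact hF.2.1
    · rw [mem_singleton, h3]; exact hF.2.2
    · rw [mem_Icc]; exact abs_le.1 (hF.1.1.2 m.1)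
  · intro F hF G hG h
    rw [mem_filter, mem_filter, mem_PF] at hF hG
    ext m
    by_cases hm : m ∈ E
    · exact congrFun h ⟨m, hm⟩
    · have h4 : coeff m F = 0 := by
        by_contra h5
        exact hm (hF.1.1.1 m h5)
      have h6 : coeff m G = 0 := by
        by_contra h5
        exact hm (hG.1.1.1 m h5)
      rw [h4, h6]
  · intro c hc
    rw [Fintype.mem_piFinset] at hc
    have hc0 : c ⟨m₀, h₀⟩ = a := by
      have := hc ⟨m₀, h₀⟩
      simpa using this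
    have hc1 : c ⟨m₁, h₁⟩ = b := by
      have := hc ⟨m₁, h₁⟩
      simp only [if_neg hne.symm, if_true, mem_singleton] at this
      exact this
    refine ⟨∑ m : E, monomial m.1 (c m), ?_, ?_⟩
    · rw [mem_filter, mem_filter, Prod.mk.injEq, coeff_toF, coeff_toF, dif_pos h₀, dif_pos h₁, hc0,
        hc1]
      refine ⟨⟨?_, hab.2⟩, rfl, rfl⟩
      unfold PF
      rw [mem_image]
      refine ⟨c, ?_, rfl⟩
      rw [Fintype.mem_piFinset]
      intro m
      have h2 := hc m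
      split_ifs at h2 with h3 h4
      · rw [mem_singleton.1 h2]; exact hab.1.1
      · rw [mem_singleton.1 h2]; exact hab.1.2
      · exact h2
    · funext m
      rw [coeff_toF, dif_pos m.2]

/-- tuples of forms with coprime coefficients -/
def PForms (n r : ℕ) (d : Fin r → ℕ) (H : ℝ) : Set (Fin r → MvPolynomial (Fin (n + 1)) ℤ) :=
  {F | ∀ i, (F i).IsHomogeneous (d i) ∧ (F i).support.gcd (fun m => (F i).coeff m) = 1 ∧
    ∀ m, |(((F i).coeff m : ℤ) : ℝ)| ≤ H}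

theorem PForms_sub (n r : ℕ) (d : Fin r → ℕ) (H : ℝ) : PForms n r d H ⊆ Forms n r d H :=
  fun _ hF i => ⟨(hF i).1, (hF i).2.2⟩

/-- most forms have coprime coefficients, up to small powers -/
theorem PForms_lower (n r : ℕ) (hn : 1 ≤ n) (d : Fin r → ℕ) (hd : ∀ i, 1 ≤ d i) (δ : ℝ)
    (hδ : 0 < δ) : ∃ c : ℝ, 0 < c ∧ ∀ H : ℝ, 1 ≤ H →
    c * (Forms n r d H).ncard ≤ (PForms n r d H).ncard * H ^ δ := by
  classical
  obtain ⟨c, hc, hpairs⟩ := pairs_lower (δ / (r + 1)) (by positivity)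
  refine ⟨(c / 9) ^ r, by positivity, fun H hH => ?_⟩
  have hH0 : (0 : ℝ) < H := by linarith
  obtain ⟨K, hK⟩ : ∃ K : ℕ, K = ⌊H⌋₊ := ⟨_, rfl⟩
  have hK1 : 1 ≤ K := by rw [hK]; exact Nat.le_floor (by exact_mod_cast hH)
  have hK1' : (1 : ℝ) ≤ K := by exact_mod_cast hK1
  have hK0 : (0 : ℝ) < K := by linarith
  have hKH : (K : ℝ) ≤ H := by rw [hK]; exact Nat.floor_le hH0.le
  have h01 : (0 : Fin (n + 1)) ≠ 1 := by
    intro h
    have := congrArg Fin.val h
    rw [Fin.val_zero, Fin.val_one'] at this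
    rw [Nat.mod_eq_of_lt (by omega)] at this
    omega
  have hm : ∀ (i : Fin r) (j : Fin (n + 1)),
      (Finsupp.single j (d i) : Fin (n + 1) →₀ ℕ) ∈ Ex (Fin (n + 1)) (d i) := by
    intro i j
    rw [mem_Ex, Finset.sum_eq_single j]
    · simp
    · intro b _ hb
      rw [Finsupp.single_apply, if_neg (Ne.symm hb)]
    · intro h; exact absurd (mem_univ _) h
  have hne : ∀ i : Fin r, (Finsupp.single (0 : Fin (n + 1)) (d i) : Fin (n + 1) →₀ ℕ) ≠
      Finsupp.single (1 : Fin (n + 1)) (d i) := by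
    intro i h
    have h1 := DFunLike.congr_fun h 0
    rw [Finsupp.single_eq_same, Finsupp.single_apply, if_neg h01.symm] at h1
    have := hd i
    omega
  set Q : Fin r → Finset (MvPolynomial (Fin (n + 1)) ℤ) := fun i =>
    (PF (Ex (Fin (n + 1)) (d i)) K).filter fun F =>
      IsCoprime (coeff (Finsupp.single 0 (d i)) F) (coeff (Finsupp.single 1 (d i)) F) with hQ
  have hsub : (↑(Fintype.piFinset Q) : Set (Fin r → MvPolynomial (Fin (n + 1)) ℤ)) ⊆
      PForms n r d H := by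
    intro F hF
    rw [mem_coe, Fintype.mem_piFinset] at hF
    have hF2 : F ∈ Forms n r d H := by
      rw [Forms_eq n r d H hH0.le, mem_coe, Fintype.mem_piFinset, ← hK]
      exact fun i => (mem_filter.1 (hF i)).1
    intro i
    refine ⟨(hF2 i).1, ?_, (hF2 i).2⟩
    have h1 := (mem_filter.1 (hF i)).2
    set g := (F i).support.gcd (fun m => (F i).coeff m) with hg
    have h2 : ∀ m, g ∣ (F i).coeff m := by
      intro m
      by_cases hm : m ∈ (F i).support
      · exact Finset.gcd_dvd hm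
      · rw [notMem_support_iff.1 hm]
        exact dvd_zero _
    have h3 : IsUnit g := h1.isUnit_of_dvd' (h2 _) (h2 _)
    have h4 : normalize g = g := by rw [hg, Finset.normalize_gcd]
    rw [← h4]
    exact normalize_eq_one.2 h3
  have hfin : (PForms n r d H).Finite := by
    refine Set.Finite.subset ?_ (PForms_sub n r d H)
    rw [Forms_eq n r d H hH0.le]
    exact Finset.finite_toSet _
  have h1 : ((Fintype.piFinset Q).card : ℝ) ≤ (PForms n r d H).ncard := by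
    have := Set.ncard_le_ncard hsub hfin
    rw [Set.ncard_coe_finset] at this
    exact_mod_cast this
  have h2 : ∀ i, (c / 9) * ((PF (Ex (Fin (n + 1)) (d i)) K).card : ℝ) ≤
      ((Q i).card : ℝ) * (K : ℝ) ^ (δ / (r + 1)) := by
    intro i
    have hcard : 2 ≤ (Ex (Fin (n + 1)) (d i)).card := by
      refine (Finset.card_pair (hne i)).symm.le.trans (card_le_card ?_)
      intro m hm'
      rw [mem_insert, mem_singleton] at hm'
      rcases hm' with rfl | rfl
      · exact hm i 0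
      · exact hm i 1
    rw [hQ]
    simp only
    rw [PF_pairs _ K _ _ (hm i 0) (hm i 1) (hne i), PF_card]
    obtain ⟨N', hN'⟩ : ∃ N', (Ex (Fin (n + 1)) (d i)).card = N' + 2 :=
      ⟨_, (Nat.sub_add_cancel hcard).symm⟩
    rw [hN', Nat.add_sub_cancel]
    have h3 := hpairs K hK1
    push_cast
    have h4 : ((2 : ℝ) * K + 1) ^ 2 ≤ 9 * K ^ 2 := by nlinarith
    calc c / 9 * (2 * (K : ℝ) + 1) ^ (N' + 2) = (c / 9 * (2 * (K : ℝ) + 1) ^ 2) *
          (2 * (K : ℝ) + 1) ^ N' := by ring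
      _ ≤ (c / 9 * (9 * K ^ 2)) * (2 * (K : ℝ) + 1) ^ N' := by gcongr
      _ = (c * K ^ 2) * (2 * (K : ℝ) + 1) ^ N' := by ring
      _ ≤ _ := by
          refine (mul_le_mul_of_nonneg_right h3 (by positivity)).trans (le_of_eq ?_)
          ring
  have h3 : (c / 9) ^ r * ((Forms n r d H).ncard : ℝ) ≤
      ((Fintype.piFinset Q).card : ℝ) * ((K : ℝ) ^ (δ / (r + 1))) ^ r := by
    rw [Forms_eq n r d H hH0.le, Set.ncard_coe_finset, ← hK, Fintype.card_piFinset,
      Fintype.card_piFinset]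
    push_cast
    have e1 : (c / 9) ^ r = ∏ _i : Fin r, (c / 9) := by
      rw [prod_const, card_univ, Fintype.card_fin]
    have e2 : ((K : ℝ) ^ (δ / (r + 1))) ^ r = ∏ _i : Fin r, ((K : ℝ) ^ (δ / (r + 1))) := by
      rw [prod_const, card_univ, Fintype.card_fin]
    rw [e1, e2, ← prod_mul_distrib, ← prod_mul_distrib]
    exact prod_le_prod (fun i _ => by positivity) fun i _ => h2 i
  have h4 : ((K : ℝ) ^ (δ / (r + 1))) ^ r ≤ H ^ δ := by
    rw [← Real.rpow_natCast, ← Real.rpow_mul hK0.le]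
    calc (K : ℝ) ^ (δ / (r + 1) * r) ≤ (K : ℝ) ^ δ := by
          apply Real.rpow_le_rpow_of_exponent_le hK1'
          rw [div_mul_eq_mul_div, div_le_iff₀ (by positivity)]
          nlinarith
      _ ≤ H ^ δ := by gcongr
  refine h3.trans ?_
  gcongr

theorem PForms_finite (n r : ℕ) (d : Fin r → ℕ) (H : ℝ) (hH : 0 ≤ H) :
    (PForms n r d H).Finite := by
  refine Set.Finite.subset ?_ (PForms_sub n r d H)
  rw [Forms_eq n r d H hH]
  exact Finset.finite_toSet _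

theorem main (n r : ℕ) (hn : 1 ≤ n) (d : Fin r → ℕ) (hd : ∀ i, 1 ≤ d i) (S : Finset ℕ)
    (β C₀ : ℝ) (hβ : 0 ≤ β) (hC₀ : 0 ≤ C₀)
    (ε : ℝ) (hε : 0 < ε) : ∃ η : ℝ, 0 < η ∧ ∃ C : ℝ,
    ∀ (X : Set (Fin (n + 1) → ℤ)), (∀ x ∈ X, univ.gcd x = 1) →
    (∀ T : ℝ, 0 ≤ T → ({x ∈ X | ht x ≤ T}.ncard : ℝ) ≤ C₀ * Real.exp (β * T)) →
    ∀ T : ℝ, 0 ≤ T →
    ({F ∈ PForms n r d (Real.exp T) | ∃ x ∈ X, ht x ≤ T ∧ (∀ i, eval x (F i) ≠ 0) ∧
      N1 S (∏ i, eval x (F i)) < ((∑ i, d i : ℕ) - β - ε) * ht x + (r - ε) * T}.ncard : ℝ)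
      ≤ C * Real.exp (-η * T) * (PForms n r d (Real.exp T)).ncard := by
  obtain ⟨η, hη, C, hC, h⟩ := bad_count n r d S β C₀ hβ hC₀ ε hε
  obtain ⟨c, hc, hlow⟩ := PForms_lower n r hn d hd (η / 2) (by positivity)
  refine ⟨η / 2, by positivity, C / c, fun X hX1 hX T hT => ?_⟩
  have hH : 1 ≤ Real.exp T := Real.one_le_exp hT
  have h1 := h X hX1 hX (Real.exp T) hH
  have h2 := hlow (Real.exp T) hH
  rw [Real.log_exp, ← Real.exp_mul] at h1
  rw [← Real.exp_mul] at h2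
  have hfin : (Forms n r d (Real.exp T)).Finite := by
    rw [Forms_eq n r d _ (by positivity)]
    exact Finset.finite_toSet _
  have h3 : ({F ∈ PForms n r d (Real.exp T) | ∃ x ∈ X, ht x ≤ T ∧ (∀ i, eval x (F i) ≠ 0) ∧
      N1 S (∏ i, eval x (F i)) < ((∑ i, d i : ℕ) - β - ε) * ht x + (r - ε) * T}.ncard : ℝ) ≤
      ({F ∈ Forms n r d (Real.exp T) | ∃ x ∈ X, ht x ≤ T ∧ (∀ i, eval x (F i) ≠ 0) ∧
      N1 S (∏ i, eval x (F i)) < ((∑ i, d i : ℕ) - β - ε) * ht x + (r - ε) * T}.ncard : ℝ) := by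
    have h4 : {F ∈ PForms n r d (Real.exp T) | ∃ x ∈ X, ht x ≤ T ∧ (∀ i, eval x (F i) ≠ 0) ∧
      N1 S (∏ i, eval x (F i)) < ((∑ i, d i : ℕ) - β - ε) * ht x + (r - ε) * T} ⊆
      {F ∈ Forms n r d (Real.exp T) | ∃ x ∈ X, ht x ≤ T ∧ (∀ i, eval x (F i) ≠ 0) ∧
      N1 S (∏ i, eval x (F i)) < ((∑ i, d i : ℕ) - β - ε) * ht x + (r - ε) * T} :=
      fun F hF => ⟨PForms_sub n r d _ hF.1, hF.2⟩
    have h5 := Set.ncard_le_ncard h4 (hfin.subset fun F hF => hF.1)
    exact Nat.cast_le.2 h5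
  calc _ ≤ _ := h3
    _ ≤ _ := h1
    _ = C / c * Real.exp (T * -η) * (c * (Forms n r d (Real.exp T)).ncard) := by field_simp
    _ ≤ C / c * Real.exp (T * -η) * ((PForms n r d (Real.exp T)).ncard * Real.exp (T * (η / 2))) := by
        gcongr
    _ = C / c * (Real.exp (T * -η) * Real.exp (T * (η / 2))) *
        (PForms n r d (Real.exp T)).ncard := by ring
    _ = _ := by
        rw [← Real.exp_add]
        congr 3
        ring

end Pool.Agent.K4H51.RD
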