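import Mathlib
import Pool.Agent.TH905.VF.Core

set_option autoImplicit false

/-! the discriminant of a field that contains roots of integers -/

namespace Pool.Agent.K4H51.RD

open NumberField IsDedekindDomain Height Pool.Agent.H691R3

/-- the prime of the integers of `ℚ` over `p` -/
theorem exists_v (p : ℕ) (hp : p.Prime) : ∃ v : HeightOneSpectrum (𝓞 ℚ),
    v.asIdeal = Ideal.span {(p : 𝓞 ℚ)} ∧ Ideal.absNorm v.asIdeal = p := by
  have h1 : Prime (p : 𝓞 ℚ) := by
    have h2 : Prime ((Rat.ringOfIntegersEquiv : 𝓞 ℚ ≃+* ℤ) (p : 𝓞 ℚ)) := by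
      rw [map_natCast]
      exact Nat.prime_iff_prime_int.1 hp
    exact (MulEquiv.prime_iff (Rat.ringOfIntegersEquiv : 𝓞 ℚ ≃+* ℤ)).1 h2
  have h0 : (p : 𝓞 ℚ) ≠ 0 := h1.ne_zero
  refine ⟨⟨Ideal.span {(p : 𝓞 ℚ)}, (Ideal.span_singleton_prime h0).2 h1, ?_⟩, rfl, ?_⟩
  · rw [Ne, Ideal.span_singleton_eq_bot]
    exact h0
  · show Ideal.absNorm (Ideal.span {(p : 𝓞 ℚ)}) = p
    rw [Ideal.absNorm_span_singleton]
    have h2 : (p : 𝓞 ℚ) = algebraMap ℤ (𝓞 ℚ) (p : ℤ) := by simp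
    rw [h2, Algebra.norm_algebraMap, RingOfIntegers.rank, Module.finrank_self, pow_one,
      Int.natAbs_natCast]

section

variable {L : Type} [Field L] [NumberField L]

theorem fv_int_le (w : HeightOneSpectrum (𝓞 L)) (a : ℤ) : fv w (a : L) ≤ 1 := by
  have h := FinitePlace.norm_le_one L w (a : 𝓞 L)
  have h2 : fv w (a : L) = ‖FinitePlace.embedding w (algebraMap (𝓞 L) L (a : 𝓞 L))‖ := by
    rw [map_intCast (algebraMap (𝓞 L) L)]
    rfl
  rw [h2]
  exact h

theorem fv_int_lt (w : HeightOneSpectrum (𝓞 L)) (a : ℤ) (h : (a : 𝓞 L) ∈ w.asIdeal) :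
    fv w (a : L) < 1 := by
  have h1 := (FinitePlace.norm_lt_one_iff_mem L w (a : 𝓞 L)).2 h
  have h2 : fv w (a : L) = ‖FinitePlace.embedding w (algebraMap (𝓞 L) L (a : 𝓞 L))‖ := by
    rw [map_intCast (algebraMap (𝓞 L) L)]
    rfl
  rw [h2]
  exact h1

theorem fv_int_eq (w : HeightOneSpectrum (𝓞 L)) (a : ℤ) (h : (a : 𝓞 L) ∉ w.asIdeal) :
    fv w (a : L) = 1 := by
  have h1 := (FinitePlace.norm_eq_one_iff_notMem L w (a : 𝓞 L)).2 h
  have h2 : fv w (a : L) = ‖FinitePlace.embedding w (algebraMap (𝓞 L) L (a : 𝓞 L))‖ := by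
    rw [map_intCast (algebraMap (𝓞 L) L)]
    rfl
  rw [h2]
  exact h1

/-- product formula for a natural number, over a set of primes -/
theorem sum_fv_le (W : Finset (HeightOneSpectrum (𝓞 L))) (b : ℕ) (hb : b ≠ 0) :
    ∑ w ∈ W, -Real.log (fv w ((b : ℤ) : L)) ≤ Module.finrank ℚ L * Real.log b := by
  classical
  have hbL : ((b : ℤ) : L) ≠ 0 := by
    rw [Int.cast_natCast]
    exact_mod_cast hb
  obtain ⟨T, hT⟩ := Pool.Agent.TH905.VF.exists_supp (L := L) (fun _ : Fin 1 => ((b : ℤ) : L))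
    fun _ => hbL
  have h1 := Pool.Agent.TH905.VF.product_formula hbL (T ∪ W) fun v hv => hT v
    (fun h => hv (Finset.mem_union_left _ h)) 0
  have h2 : ∑ w : InfinitePlace L, (w.mult : ℝ) * Real.log (w.1 ((b : ℤ) : L)) =
      Module.finrank ℚ L * Real.log b := by
    have h3 : ∀ w : InfinitePlace L, w.1 ((b : ℤ) : L) = (b : ℝ) := by
      intro w
      rw [Int.cast_natCast]
      show w (b : L) = (b : ℝ)
      rw [← InfinitePlace.norm_embedding_eq, map_natCast, Complex.norm_natCast]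
    simp_rw [h3]
    rw [← Finset.sum_mul, ← InfinitePlace.sum_mult_eq (K := L)]
    push_cast
    rfl
  have h3 : ∑ w ∈ W, -Real.log (fv w ((b : ℤ) : L)) ≤
      ∑ w ∈ T ∪ W, -Real.log (fv w ((b : ℤ) : L)) := by
    refine Finset.sum_le_sum_of_subset_of_nonneg Finset.subset_union_right fun v _ _ => ?_
    have h4 := fv_int_le v (b : ℤ)
    have h5 := Real.log_nonpos ((fv v).nonneg _) h4
    linarith
  simp only [Finset.sum_neg_distrib] at h3 ⊢
  linarith

theorem log_norm_le (w : HeightOneSpectrum (𝓞 L)) (x : L) (hx : x ≠ 0) (h : fv w x < 1) :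
    Real.log (Ideal.absNorm w.asIdeal) ≤ -Real.log (fv w x) := by
  obtain ⟨n, hn⟩ := log_fv w hx
  have h1 : Real.log (fv w x) < 0 := Real.log_neg ((fv w).pos hx) h
  have hN := log_Nv_pos w
  rw [hn] at h1 ⊢
  have h2 : n < 0 := by
    by_contra hc
    push Not at hc
    have : (0 : ℝ) ≤ n := by exact_mod_cast hc
    nlinarith
  have h3 : (n : ℝ) ≤ -1 := by
    have : n ≤ -1 := by omega
    exact_mod_cast this
  have h4 : Real.log (Ideal.absNorm w.asIdeal) = Real.log (Nv w) := rfl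
  rw [h4]
  nlinarith

/-- the discriminant of a field that contains roots of integers -/
theorem disc_key {r : ℕ} (m : Fin r → ℕ) (hm : ∀ i, m i ≠ 0) (y : Fin r → L) (a : Fin r → ℤ)
    (ha : ∀ i, a i ≠ 0) (h : ∀ i, y i ^ m i = (a i : L)) (b : Fin r → ℕ) (hb : ∀ i, b i ≠ 0)
    (P : Finset ℕ) (hP : ∀ p ∈ P, p.Prime ∧ ∃ i, (p : ℤ) ∣ a i)
    (hab : ∀ i, ∀ w : HeightOneSpectrum (𝓞 L), (∃ p ∈ P, (p : 𝓞 L) ∈ w.asIdeal) →
      fv w (a i : L) = fv w ((b i : ℤ) : L)) :
    (Module.finrank ℚ L : ℝ) * ∑ p ∈ P, Real.log p ≤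
      Real.log |(discr L : ℝ)| + Module.finrank ℚ L * ∑ i, 1 / (m i : ℝ) * Real.log (b i) := by
  classical
  choose v hv1 hv2 using exists_v
  set V : Finset (HeightOneSpectrum (𝓞 ℚ)) := P.attach.image fun p => v p.1 (hP p.1 p.2).1 with hV
  obtain ⟨W, hW1, hW2⟩ := Pool.Agent.TH905.VF.rel (k := ℚ) (L := L) V
  have hsumV : ∑ v ∈ V, Real.log (Ideal.absNorm v.asIdeal) = ∑ p ∈ P, Real.log p := by
    rw [hV, Finset.sum_image]
    · rw [← Finset.sum_attach P]
      refine Finset.sum_congr rfl fun p _ => ?_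
      rw [hv2]
    · intro p _ q _ hpq
      have h1 := congrArg (fun v : HeightOneSpectrum (𝓞 ℚ) => Ideal.absNorm v.asIdeal) hpq
      simp only [hv2] at h1
      exact Subtype.ext h1
  have hWp : ∀ w ∈ W, ∃ p ∈ P, (p : 𝓞 L) ∈ w.asIdeal := by
    intro w hw
    obtain ⟨v', hv', hwv⟩ := hW1 w hw
    rw [hV, Finset.mem_image] at hv'
    obtain ⟨p, -, rfl⟩ := hv'
    refine ⟨p.1, p.2, ?_⟩
    have h1 : ((p.1 : 𝓞 ℚ)) ∈ (v p.1 (hP p.1 p.2).1).asIdeal := by
      rw [hv1]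
      exact Ideal.mem_span_singleton_self _
    have h2 := hwv.over
    rw [h2, Ideal.mem_under] at h1
    rwa [map_natCast] at h1
  rw [hsumV, NumberField.discr_rat] at hW2
  have hy0 : ∀ i, y i ≠ 0 := by
    intro i h0
    have h1 := h i
    rw [h0, zero_pow (hm i)] at h1
    exact ha i (by exact_mod_cast h1.symm)
  have hfvy : ∀ i, ∀ w : HeightOneSpectrum (𝓞 L), -Real.log (fv w (y i)) =
      1 / (m i : ℝ) * -Real.log (fv w (a i : L)) := by
    intro i w
    have h1 : (m i : ℝ) ≠ 0 := by exact_mod_cast hm i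
    rw [← h i, map_pow, Real.log_pow]
    field_simp
  have hnn : ∀ i, ∀ w : HeightOneSpectrum (𝓞 L), 0 ≤ -Real.log (fv w (y i)) := by
    intro i w
    rw [hfvy]
    have h1 := Real.log_nonpos ((fv w).nonneg _) (fv_int_le w (a i))
    have h2 : 0 ≤ 1 / (m i : ℝ) := by positivity
    nlinarith
  have hterm : ∀ w ∈ W, Real.log (Ideal.absNorm w.asIdeal) ≤ ∑ i, -Real.log (fv w (y i)) := by
    intro w hw
    obtain ⟨p, hp, hpw⟩ := hWp w hw
    obtain ⟨i, hi⟩ := (hP p hp).2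
    have h1 : (a i : 𝓞 L) ∈ w.asIdeal := by
      obtain ⟨c, hc⟩ := hi
      rw [hc, Int.cast_mul, Int.cast_natCast]
      exact Ideal.mul_mem_right _ _ hpw
    have h2 := fv_int_lt w (a i) h1
    have h3 : fv w (y i) < 1 := by
      rw [← h i, map_pow] at h2
      by_contra hc
      push Not at hc
      exact absurd (one_le_pow₀ hc) (not_le.2 h2)
    refine (log_norm_le w (y i) (hy0 i) h3).trans ?_
    exact Finset.single_le_sum (f := fun i => -Real.log (fv w (y i))) (fun i _ => hnn i w)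
      (Finset.mem_univ i)
  have hsum : ∑ w ∈ W, Real.log (Ideal.absNorm w.asIdeal) ≤
      Module.finrank ℚ L * ∑ i, 1 / (m i : ℝ) * Real.log (b i) := by
    refine (Finset.sum_le_sum hterm).trans ?_
    rw [Finset.sum_comm, Finset.mul_sum]
    refine Finset.sum_le_sum fun i _ => ?_
    have h1 : ∑ w ∈ W, -Real.log (fv w (y i)) =
        1 / (m i : ℝ) * ∑ w ∈ W, -Real.log (fv w ((b i : ℤ) : L)) := by
      rw [Finset.mul_sum]
      refine Finset.sum_congr rfl fun w hw => ?_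
      rw [hfvy, hab i w (hWp w hw)]
    rw [h1]
    have h2 := sum_fv_le W (b i) (hb i)
    have h3 : 0 ≤ 1 / (m i : ℝ) := by positivity
    calc 1 / (m i : ℝ) * ∑ w ∈ W, -Real.log (fv w ((b i : ℤ) : L)) ≤
          1 / (m i : ℝ) * (Module.finrank ℚ L * Real.log (b i)) := mul_le_mul_of_nonneg_left h2 h3
      _ = _ := by ring
  have h4 : Real.log |((1 : ℤ) : ℝ)| = 0 := by simp
  rw [h4, zero_add] at hW2
  linarith

/-- the part of `a` prime to `S` -/
def pS (S : Finset ℕ) (a : ℤ) : ℕ := ∏ p ∈ a.natAbs.primeFactors \ S, p ^ a.natAbs.factorization p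

theorem pS_ne (S : Finset ℕ) (a : ℤ) : pS S a ≠ 0 := by
  unfold pS
  rw [Finset.prod_ne_zero_iff]
  intro p hp
  exact pow_ne_zero _ (Nat.prime_of_mem_primeFactors (Finset.mem_sdiff.1 hp).1).ne_zero

theorem natAbs_eq (S : Finset ℕ) (a : ℤ) (ha : a ≠ 0) : a.natAbs =
    pS S a * ∏ p ∈ S.filter Nat.Prime, p ^ a.natAbs.factorization p := by
  classical
  have h0 : a.natAbs ≠ 0 := Int.natAbs_ne_zero.2 ha
  have h1 : a.natAbs = ∏ p ∈ a.natAbs.primeFactors, p ^ a.natAbs.factorization p :=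
    (Nat.prod_factorization_pow_eq_self h0).symm
  have h2 : ∏ p ∈ S.filter Nat.Prime, p ^ a.natAbs.factorization p =
      ∏ p ∈ a.natAbs.primeFactors ∩ S, p ^ a.natAbs.factorization p := by
    symm
    apply Finset.prod_subset
    · intro p hp
      rw [Finset.mem_inter] at hp
      rw [Finset.mem_filter]
      exact ⟨hp.2, Nat.prime_of_mem_primeFactors hp.1⟩
    · intro p hp hp2
      rw [Finset.mem_filter] at hp
      have h3 : p ∉ a.natAbs.primeFactors := fun h => hp2 (Finset.mem_inter.2 ⟨h, hp.1⟩)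
      rw [← Nat.support_factorization, Finsupp.notMem_support_iff] at h3
      rw [h3, pow_zero]
  conv_lhs => rw [h1]
  unfold pS
  rw [h2, ← Finset.prod_sdiff (s₁ := a.natAbs.primeFactors ∩ S) (s₂ := a.natAbs.primeFactors)
    Finset.inter_subset_left, Finset.sdiff_inter_self_left]

theorem log_pS (S : Finset ℕ) (a : ℤ) (ha : a ≠ 0) : Real.log (pS S a) =
    Real.log |(a : ℝ)| - ∑ p ∈ S.filter Nat.Prime, (padicValInt p a : ℝ) * Real.log p := by
  have h1 : |(a : ℝ)| = (a.natAbs : ℝ) := by rw [Nat.cast_natAbs, Int.cast_abs]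
  have h2 : (pS S a : ℝ) ≠ 0 := by exact_mod_cast pS_ne S a
  have h3 : ∀ p ∈ S.filter Nat.Prime, ((p ^ a.natAbs.factorization p : ℕ) : ℝ) ≠ 0 := by
    intro p hp
    rw [Finset.mem_filter] at hp
    exact_mod_cast pow_ne_zero _ hp.2.ne_zero
  rw [h1]
  conv_rhs => rw [natAbs_eq S a ha]
  rw [Nat.cast_mul, Nat.cast_prod, Real.log_mul h2 (Finset.prod_ne_zero_iff.2 h3), Real.log_prod h3]
  have h4 : ∑ p ∈ S.filter Nat.Prime, Real.log ((p ^ a.natAbs.factorization p : ℕ) : ℝ) =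
      ∑ p ∈ S.filter Nat.Prime, (padicValInt p a : ℝ) * Real.log p := by
    refine Finset.sum_congr rfl fun p hp => ?_
    rw [Finset.mem_filter] at hp
    rw [Nat.cast_pow, Real.log_pow]
    congr 2
    rw [padicValInt, Nat.factorization_def _ hp.2]
  rw [h4]
  ring

/-- the discriminant of a field that contains roots of integers, with a set `S` of primes -/
theorem disc_main {r : ℕ} (S : Finset ℕ) (m : Fin r → ℕ) (hm : ∀ i, m i ≠ 0) (y : Fin r → L)
    (a : Fin r → ℤ) (ha : ∀ i, a i ≠ 0) (h : ∀ i, y i ^ m i = (a i : L)) :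
    ∑ p ∈ (∏ i, a i).natAbs.primeFactors \ S, Real.log p ≤
      Real.log |(discr L : ℝ)| / Module.finrank ℚ L + ∑ i, 1 / (m i : ℝ) *
        (Real.log |(a i : ℝ)| -
          ∑ p ∈ S.filter Nat.Prime, (padicValInt p (a i) : ℝ) * Real.log p) := by
  classical
  have hL : (0 : ℝ) < Module.finrank ℚ L := by exact_mod_cast Module.finrank_pos
  set P := (∏ i, a i).natAbs.primeFactors \ S with hPdef
  have hP : ∀ p ∈ P, p.Prime ∧ ∃ i, (p : ℤ) ∣ a i := by
    intro p hp
    have h1 := (Finset.mem_sdiff.1 hp).1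
    have h2 := Nat.prime_of_mem_primeFactors h1
    refine ⟨h2, ?_⟩
    have h3 : (p : ℤ) ∣ ∏ i, a i := Int.natCast_dvd.2 (Nat.dvd_of_mem_primeFactors h1)
    obtain ⟨i, -, hi⟩ := (Nat.prime_iff_prime_int.1 h2).dvd_finsetProd_iff _ |>.1 h3
    exact ⟨i, hi⟩
  have hab : ∀ i, ∀ w : HeightOneSpectrum (𝓞 L), (∃ p ∈ P, (p : 𝓞 L) ∈ w.asIdeal) →
      fv w (a i : L) = fv w ((pS S (a i) : ℤ) : L) := by
    rintro i w ⟨p, hp, hpw⟩
    have h1 := natAbs_eq S (a i) (ha i)
    have h2 : fv w (a i : L) = fv w (((a i).natAbs : ℤ) : L) := by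
      rcases Int.natAbs_eq (a i) with h3 | h3
      · rw [← h3]
      · conv_lhs => rw [h3]
        rw [Int.cast_neg, AbsoluteValue.map_neg]
    rw [h2, h1, Nat.cast_mul, Int.cast_mul, map_mul]
    have h3 : fv w (((∏ p ∈ S.filter Nat.Prime, p ^ (a i).natAbs.factorization p : ℕ) : ℤ) : L) =
        1 := by
      rw [Int.cast_natCast, Nat.cast_prod, map_prod]
      refine Finset.prod_eq_one fun s hs => ?_
      rw [Finset.mem_filter] at hs
      rw [Nat.cast_pow, map_pow]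
      have h4 : ((s : ℤ) : 𝓞 L) ∉ w.asIdeal := by
        intro hsw
        have h5 : Nat.Coprime p s := by
          rw [Nat.coprime_primes (hP p hp).1 hs.2]
          intro h6
          exact (Finset.mem_sdiff.1 hp).2 (h6 ▸ hs.1)
        have h6 : IsCoprime (p : ℤ) (s : ℤ) := Nat.isCoprime_iff_coprime.2 h5
        obtain ⟨u, t, hut⟩ := h6
        apply w.isPrime.ne_top
        rw [Ideal.eq_top_iff_one]
        have h7 : (1 : 𝓞 L) = (u : 𝓞 L) * (p : 𝓞 L) + (t : 𝓞 L) * ((s : ℤ) : 𝓞 L) := by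
          have := congrArg (fun z : ℤ => (z : 𝓞 L)) hut
          simp only [Int.cast_add, Int.cast_mul, Int.cast_one, Int.cast_natCast] at this ⊢
          exact this.symm
        rw [h7]
        exact Ideal.add_mem _ (Ideal.mul_mem_left _ _ hpw) (Ideal.mul_mem_left _ _ hsw)
      have h5 := fv_int_eq w (s : ℤ) h4
      rw [Int.cast_natCast] at h5
      rw [h5, one_pow]
    rw [h3, mul_one]
  have hkey := disc_key m hm y a ha h (fun i => pS S (a i)) (fun i => pS_ne S (a i)) P hP hab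
  have h5 : ∑ i, 1 / (m i : ℝ) * Real.log (pS S (a i)) = ∑ i, 1 / (m i : ℝ) *
        (Real.log |(a i : ℝ)| -
          ∑ p ∈ S.filter Nat.Prime, (padicValInt p (a i) : ℝ) * Real.log p) :=
    Finset.sum_congr rfl fun i _ => by rw [log_pS S (a i) (ha i)]
  rw [h5] at hkey
  have h6 := div_le_div_of_nonneg_right hkey hL.le
  rw [mul_div_cancel_left₀ _ hL.ne', add_div, mul_div_cancel_left₀ _ hL.ne'] at h6
  exact h6

end

end Pool.Agent.K4H51.RD
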